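import Mathlib

/-!
# Chromatic symmetric functions, coefficients in the elementary basis, connected partitions
-/

set_option autoImplicit false

namespace Pool.Agent.Q279.SpiderDefs

open MvPolynomial

/-- The chromatic symmetric function `X_G` of a graph on `n` vertices, in the `n` variables
`x_1, ..., x_n`: the sum over all proper colourings `κ` of the product of the `x_{κ(v)}`. -/
noncomputable def csf {n : ℕ} (G : SimpleGraph (Fin n)) : MvPolynomial (Fin n) ℚ :=
  open Classical in
  ∑ κ : Fin n → Fin n, if (∀ u v, G.Adj u v → κ u ≠ κ v) then ∏ v, X (κ v) else 0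

theorem csf_isSymmetric {n : ℕ} (G : SimpleGraph (Fin n)) : (csf G).IsSymmetric := by
  classical
  intro e
  unfold csf
  rw [map_sum]
  refine Fintype.sum_equiv (Equiv.arrowCongr (Equiv.refl (Fin n)) e) _ _ ?_
  intro κ
  have h : (∀ u v, G.Adj u v → κ u ≠ κ v) ↔
      ∀ u v, G.Adj u v → (Equiv.arrowCongr (Equiv.refl (Fin n)) e) κ u ≠
        (Equiv.arrowCongr (Equiv.refl (Fin n)) e) κ v := by
    simp
  by_cases hκ : ∀ u v, G.Adj u v → κ u ≠ κ v
  · rw [if_pos hκ, if_pos (h.1 hκ), map_prod]
    simp
  · rw [if_neg hκ, if_neg (fun h' => hκ (h.2 h')), map_zero]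

/-- The coefficient `[e_λ] X_G` of `e_λ` in the expansion of `X_G` in the basis of the products of
elementary symmetric polynomials: `X_G` is a unique polynomial in `e_1, ..., e_n`, and we take its
coefficient at `∏ e_i ^ (number of parts of `lam` equal to `i`)`. -/
noncomputable def eCoeff {n : ℕ} (G : SimpleGraph (Fin n)) (lam : Nat.Partition n) : ℚ :=
  coeff (Finsupp.equivFunOnFinite.symm fun i : Fin n => lam.parts.count (i.val + 1))
    ((esymmAlgEquiv (Fin n) ℚ (Fintype.card_fin n)).symm ⟨csf G, csf_isSymmetric G⟩)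

/-- `L` is a connected partition of `G`: its members are pairwise disjoint, cover all vertices, and
each of them induces a connected (in particular nonempty) subgraph. -/
def IsConnectedPartition {n : ℕ} (G : SimpleGraph (Fin n)) (L : List (Finset (Fin n))) : Prop :=
  L.Pairwise Disjoint ∧ (∀ v, ∃ B ∈ L, v ∈ B) ∧
    ∀ B ∈ L, (G.induce (B : Set (Fin n))).Connected

/-- `G` has a connected partition of every type. -/
def IsCPET {n : ℕ} (G : SimpleGraph (Fin n)) : Prop :=
  ∀ lam : Nat.Partition n, ∃ L, IsConnectedPartition G L ∧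
    ((L.map Finset.card : List ℕ) : Multiset ℕ) = lam.parts

end Pool.Agent.Q279.SpiderDefs
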