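import Mathlib
import Pool.Agent.Q279.SpiderDefs

/-!
# The coefficient of `e_{(3,2^14)}` through an element of square zero
-/

set_option autoImplicit false

namespace Pool.Agent.Q279.SpiderCoeff

open MvPolynomial Pool.Agent.Q279.SpiderDefs

variable {R : Type} [CommRing R]

/-- the values of the variables -/
def w (e : R) (i : ℕ) : R :=
  if i = 0 then 1 + e else if i = 1 then -1 + e else if i = 2 then -2 * e else 0

/-- the substitution -/
noncomputable def x {n : ℕ} (e : R) (i : Fin n) : Polynomial R :=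
  Polynomial.C (w e i.val) * Polynomial.X

theorem prod_x {n : ℕ} (e : R) (S : Finset (Fin n)) :
    ∏ i ∈ S, x e i = Polynomial.C (∏ i ∈ S, w e i.val) * Polynomial.X ^ S.card := by
  unfold x
  rw [Finset.prod_mul_distrib, Finset.prod_const, map_prod]

theorem w_zero (e : R) (i : ℕ) (hi : 3 ≤ i) : w e i = 0 := by
  unfold w
  rw [if_neg (by omega), if_neg (by omega), if_neg (by omega)]

/-- elementary symmetric functions of the values -/
noncomputable def Evn (n : ℕ) (e : R) (k : ℕ) : R :=
  ∑ S ∈ Finset.powersetCard k (Finset.univ : Finset (Fin n)), ∏ i ∈ S, w e i.val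

/-- elementary symmetric functions of the values, 31 variables -/
noncomputable def Ev (e : R) (k : ℕ) : R := Evn 31 e k

theorem Ev_eq (e : R) (k : ℕ) : Ev e k =
    ∑ S ∈ Finset.powersetCard k ({0, 1, 2} : Finset (Fin 31)), ∏ i ∈ S, w e i.val := by
  unfold Ev Evn
  symm
  apply Finset.sum_subset
  · exact Finset.powersetCard_mono (Finset.subset_univ _)
  · intro S hS hS'
    rw [Finset.mem_powersetCard] at hS hS'
    have h1 : ¬ S ⊆ {0, 1, 2} := fun h => hS' ⟨h, hS.2⟩
    rw [Finset.not_subset] at h1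
    obtain ⟨i, hi, hi'⟩ := h1
    apply Finset.prod_eq_zero hi
    apply w_zero
    by_contra hcon
    apply hi'
    simp only [Finset.mem_insert, Finset.mem_singleton, Fin.ext_iff]
    have : i.val = 0 ∨ i.val = 1 ∨ i.val = 2 := by omega
    simpa using this

theorem w0 (e : R) : w e (0 : Fin 31).val = 1 + e := rfl
theorem w1 (e : R) : w e (1 : Fin 31).val = -1 + e := rfl
theorem w2 (e : R) : w e (2 : Fin 31).val = -2 * e := rfl

theorem Ev1 (e : R) : Ev e 1 = 0 := by
  rw [Ev_eq]
  have h : Finset.powersetCard 1 ({0, 1, 2} : Finset (Fin 31)) = {{0}, {1}, {2}} := by decide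
  rw [h, Finset.sum_insert (by decide), Finset.sum_insert (by decide), Finset.sum_singleton,
    Finset.prod_singleton, Finset.prod_singleton, Finset.prod_singleton, w0, w1, w2]
  ring

theorem Ev2 (e : R) (he : e * e = 0) : Ev e 2 = -1 := by
  rw [Ev_eq]
  have h : Finset.powersetCard 2 ({0, 1, 2} : Finset (Fin 31)) = {{0, 1}, {0, 2}, {1, 2}} := by
    decide
  rw [h, Finset.sum_insert (by decide), Finset.sum_insert (by decide), Finset.sum_singleton,
    Finset.prod_pair (by decide), Finset.prod_pair (by decide), Finset.prod_pair (by decide),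
    w0, w1, w2]
  linear_combination (-3 : R) * he

theorem Ev3 (e : R) (he : e * e = 0) : Ev e 3 = 2 * e := by
  rw [Ev_eq]
  have h : Finset.powersetCard 3 ({0, 1, 2} : Finset (Fin 31)) = {{0, 1, 2}} := by decide
  rw [h, Finset.sum_singleton, Finset.prod_insert (by decide), Finset.prod_pair (by decide),
    w0, w1, w2]
  linear_combination (-2 * e) * he

theorem Ev_large (e : R) (k : ℕ) (hk : 4 ≤ k) : Ev e k = 0 := by
  rw [Ev_eq, Finset.powersetCard_eq_empty.2, Finset.sum_empty]
  have : ({0, 1, 2} : Finset (Fin 31)).card = 3 := by decide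
  omega

/-- the exponent of `e_2 ^ 14 * e_3` -/
def m0 (i : Fin 31) : ℕ := if i = 1 then 14 else if i = 2 then 1 else 0

theorem deg_unique (e : R) (he : e * e = 0) (d : Fin 31 → ℕ)
    (h1 : ∑ i : Fin 31, (i.val + 1) * d i = 31)
    (h2 : ∏ i : Fin 31, Ev e (i.val + 1) ^ d i ≠ 0) : d = m0 := by
  have h0 : ∀ i : Fin 31, Ev e (i.val + 1) ^ d i ≠ 0 := fun i hi =>
    h2 (Finset.prod_eq_zero (Finset.mem_univ i) hi)
  have h3 : ∀ i : Fin 31, Ev e (i.val + 1) = 0 → d i = 0 := by
    intro i hi
    by_contra hne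
    apply h0 i
    rw [hi, zero_pow hne]
  have h4 : ∀ i : Fin 31, i ≠ 1 → i ≠ 2 → d i = 0 := by
    intro i hi1 hi2
    apply h3
    rcases Nat.lt_or_ge i.val 3 with h | h
    · have hi0 : i.val = 0 := by
        have a1 : i.val ≠ 1 := fun h => hi1 (Fin.ext h)
        have a2 : i.val ≠ 2 := fun h => hi2 (Fin.ext h)
        omega
      rw [hi0]
      exact Ev1 e
    · exact Ev_large e _ (by omega)
  have h5 : d 2 ≤ 1 := by
    by_contra hcon
    apply h0 2
    have h6 : Ev e ((2 : Fin 31).val + 1) = 2 * e := Ev3 e he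
    have h7 : d 2 = 2 + (d 2 - 2) := by omega
    rw [h6, h7, pow_add]
    have h8 : (2 * e) ^ 2 = 0 := by linear_combination (4 : R) * he
    rw [h8, zero_mul]
  have h6 : ∑ i : Fin 31, (i.val + 1) * d i = ∑ i ∈ ({1, 2} : Finset (Fin 31)),
      (i.val + 1) * d i := by
    symm
    apply Finset.sum_subset (Finset.subset_univ _)
    intro i _ hi
    simp only [Finset.mem_insert, Finset.mem_singleton, not_or] at hi
    rw [h4 i hi.1 hi.2, mul_zero]
  rw [h6, Finset.sum_pair (by decide)] at h1
  have h7 : ((1 : Fin 31).val + 1) * d 1 + ((2 : Fin 31).val + 1) * d 2 = 2 * d 1 + 3 * d 2 := rfl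
  rw [h7] at h1
  funext i
  unfold m0
  split_ifs with a b
  · subst a; omega
  · subst b; omega
  · exact h4 i a b

theorem prod_m0 (e : R) (he : e * e = 0) : ∏ i : Fin 31, Ev e (i.val + 1) ^ m0 i = 2 * e := by
  have h : ∏ i : Fin 31, Ev e (i.val + 1) ^ m0 i =
      ∏ i ∈ ({1, 2} : Finset (Fin 31)), Ev e (i.val + 1) ^ m0 i := by
    symm
    apply Finset.prod_subset (Finset.subset_univ _)
    intro i _ hi
    simp only [Finset.mem_insert, Finset.mem_singleton, not_or] at hi
    unfold m0
    rw [if_neg hi.1, if_neg hi.2, pow_zero]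
  rw [h, Finset.prod_pair (by decide)]
  have h2 : Ev e ((1 : Fin 31).val + 1) = -1 := Ev2 e he
  have h3 : Ev e ((2 : Fin 31).val + 1) = 2 * e := Ev3 e he
  rw [h2, h3]
  have h4 : m0 1 = 14 := rfl
  have h5 : m0 2 = 1 := rfl
  rw [h4, h5]
  norm_num

/-- The sum over proper colourings of the products of the values. -/
noncomputable def Z {n : ℕ} (e : R) (G : SimpleGraph (Fin n)) : R :=
  open Classical in
  ∑ κ : Fin n → Fin n, if (∀ u v, G.Adj u v → κ u ≠ κ v) then ∏ v, w e (κ v).val else 0

variable [Algebra ℚ R]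

theorem aeval_esymm {n : ℕ} (e : R) (k : ℕ) :
    aeval (x e) (esymm (Fin n) ℚ k) = Polynomial.C (Evn n e k) * Polynomial.X ^ k := by
  unfold esymm
  rw [map_sum]
  unfold Evn
  rw [map_sum, Finset.sum_mul]
  apply Finset.sum_congr rfl
  intro S hS
  rw [map_prod]
  simp only [aeval_X]
  rw [prod_x, (Finset.mem_powersetCard.1 hS).2]

theorem coeff_aeval (e : R) (he : e * e = 0) (h2e : (2 : R) * e ≠ 0)
    (P : MvPolynomial (Fin 31) ℚ) :
    (aeval (fun i : Fin 31 => (Polynomial.C (Ev e (i.val + 1)) * Polynomial.X ^ (i.val + 1) :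
      Polynomial R)) P).coeff 31 =
      algebraMap ℚ R (coeff (Finsupp.equivFunOnFinite.symm m0) P) * (2 * e) := by
  rw [aeval_def, eval₂_eq', Polynomial.finsetSum_coeff]
  have key : ∀ d ∈ P.support, ((algebraMap ℚ (Polynomial R)) (coeff d P) *
      ∏ i : Fin 31, (Polynomial.C (Ev e (i.val + 1)) * Polynomial.X ^ (i.val + 1)) ^ d i).coeff 31 =
      if d = Finsupp.equivFunOnFinite.symm m0 then
        algebraMap ℚ R (coeff d P) * (2 * e) else 0 := by
    intro d _
    have h1 : ∏ i : Fin 31, (Polynomial.C (Ev e (i.val + 1)) *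
        (Polynomial.X : Polynomial R) ^ (i.val + 1)) ^ d i =
        Polynomial.C (∏ i : Fin 31, Ev e (i.val + 1) ^ d i) *
          Polynomial.X ^ (∑ i : Fin 31, (i.val + 1) * d i) := by
      rw [← Finset.prod_pow_eq_pow_sum, map_prod, ← Finset.prod_mul_distrib]
      apply Finset.prod_congr rfl
      intro i _
      rw [mul_pow, map_pow, ← pow_mul]
    have h2 : (algebraMap ℚ (Polynomial R)) (coeff d P) =
        Polynomial.C (algebraMap ℚ R (coeff d P)) := rfl
    rw [h1, h2, ← mul_assoc, ← Polynomial.C_mul, Polynomial.coeff_C_mul, Polynomial.coeff_X_pow]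
    by_cases h3 : 31 = ∑ i : Fin 31, (i.val + 1) * d i
    · rw [if_pos h3, mul_one]
      by_cases h4 : ∏ i : Fin 31, Ev e (i.val + 1) ^ d i = 0
      · rw [h4, mul_zero, if_neg]
        rintro rfl
        have h5 := prod_m0 e he
        simp only [Finsupp.equivFunOnFinite_symm_apply_apply] at h4
        rw [h5] at h4
        exact h2e h4
      · have h5 : (d : Fin 31 → ℕ) = m0 := deg_unique e he d h3.symm h4
        have h6 : d = Finsupp.equivFunOnFinite.symm m0 := by
          apply DFunLike.coe_injective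
          rw [h5]
          rfl
        rw [if_pos h6, h5, prod_m0 e he]
    · rw [if_neg h3, mul_zero, if_neg]
      rintro rfl
      apply h3
      decide
  rw [Finset.sum_congr rfl key, Finset.sum_ite_eq']
  split_ifs with h
  · rfl
  · rw [notMem_support_iff.1 h, map_zero, zero_mul]

theorem aeval_csf {n : ℕ} (e : R) (G : SimpleGraph (Fin n)) :
    aeval (x e) (csf G) = Polynomial.C (Z e G) * Polynomial.X ^ n := by
  classical
  unfold csf Z
  rw [map_sum, map_sum, Finset.sum_mul]
  apply Finset.sum_congr rfl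
  intro κ _
  split_ifs with h
  · rw [map_prod]
    simp only [aeval_X, x]
    rw [Finset.prod_mul_distrib, map_prod, Finset.prod_const, Finset.card_univ, Fintype.card_fin]
  · rw [map_zero, map_zero, zero_mul]

theorem aeval_symm {n : ℕ} (f : symmetricSubalgebra (Fin n) ℚ) :
    aeval (fun i : Fin n => esymm (Fin n) ℚ (i.val + 1))
      ((esymmAlgEquiv (Fin n) ℚ (Fintype.card_fin n)).symm f) = f.val := by
  obtain ⟨P, hP⟩ : ∃ P, P = (esymmAlgEquiv (Fin n) ℚ (Fintype.card_fin n)).symm f := ⟨_, rfl⟩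
  rw [← hP]
  have h3 : (esymmAlgEquiv (Fin n) ℚ (Fintype.card_fin n)) P = f := by
    rw [hP, AlgEquiv.apply_symm_apply]
  have h4 := congrArg Subtype.val h3
  rw [← esymmAlgHom_apply]
  exact h4

theorem aeval_main {n : ℕ} (e : R) (G : SimpleGraph (Fin n)) :
    aeval (fun i : Fin n => (Polynomial.C (Evn n e (i.val + 1)) * Polynomial.X ^ (i.val + 1) :
      Polynomial R)) ((esymmAlgEquiv (Fin n) ℚ (Fintype.card_fin n)).symm
        ⟨csf G, csf_isSymmetric G⟩) = Polynomial.C (Z e G) * Polynomial.X ^ n := by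
  have h3 := congrArg (aeval (x e)) (aeval_symm (n := n) ⟨csf G, csf_isSymmetric G⟩)
  rw [aeval_csf, comp_aeval_apply] at h3
  simp only [aeval_esymm] at h3
  exact h3

theorem count_eq (lam : Nat.Partition 31) (hlam : lam.parts = 3 ::ₘ Multiset.replicate 14 2) :
    (fun i : Fin 31 => lam.parts.count (i.val + 1)) = m0 := by
  funext i
  rw [hlam]
  unfold m0
  rw [Multiset.count_cons, Multiset.count_replicate]
  have a1 : (i = 1) ↔ i.val = 1 := by
    rw [Fin.ext_iff]; rfl
  have a2 : (i = 2) ↔ i.val = 2 := by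
    rw [Fin.ext_iff]; rfl
  simp only [a1, a2]
  split_ifs <;> omega

theorem Z_eq (e : R) (he : e * e = 0) (h2e : (2 : R) * e ≠ 0) (G : SimpleGraph (Fin 31))
    (lam : Nat.Partition 31) (hlam : lam.parts = 3 ::ₘ Multiset.replicate 14 2) :
    Z e G = algebraMap ℚ R (eCoeff G lam) * (2 * e) := by
  have h3 := aeval_main (n := 31) e G
  unfold eCoeff
  rw [count_eq lam hlam]
  generalize (esymmAlgEquiv (Fin 31) ℚ (Fintype.card_fin 31)).symm
    ⟨csf G, csf_isSymmetric G⟩ = P at h3 ⊢
  have h5 := congrArg (fun q => Polynomial.coeff q 31) h3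
  beta_reduce at h5
  have h6 := coeff_aeval e he h2e P
  unfold Ev at h6
  rw [h6, Polynomial.coeff_C_mul, Polynomial.coeff_X_pow, if_pos rfl, mul_one] at h5
  exact h5.symm

end Pool.Agent.Q279.SpiderCoeff
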