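import Mathlib

/-!
# Packing the parts of a partition of 31 into bins of sizes 15, 12, 2, 1
-/

set_option autoImplicit false
set_option maxRecDepth 100000

namespace Pool.Agent.Q279.SpiderPack

/-- the items of the list fit into the four bins -/
def pack : List ℕ → ℕ → ℕ → ℕ → ℕ → Bool
  | [], _, _, _, _ => true
  | m :: l, a, b, c, d =>
    (Nat.ble m a && pack l (a - m) b c d) || ((Nat.ble m b && pack l a (b - m) c d) ||
    ((Nat.ble m c && pack l a b (c - m) d) || (Nat.ble m d && pack l a b c (d - m))))

/-- all parts but the first fit into the bins -/
def good (l : List ℕ) : Bool := pack l.tail 15 12 2 1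

/-- check all continuations of the reversed list `acc` by non-increasing parts of size at most `p`
and of sum `rem` -/
def all : ℕ → ℕ → ℕ → List ℕ → Bool
  | 0, _, _, _ => false
  | f + 1, rem, p, acc =>
    bif Nat.beq rem 0 then good acc.reverse else
      (Nat.beq p 0 ||
        ((Nat.ble (rem + 1) p || all f (rem - p) p (p :: acc)) && all f rem (p - 1) acc))

theorem all_sound : ∀ (f rem p : ℕ) (acc : List ℕ), all f rem p acc = true →
    ∀ l : List ℕ, l.Pairwise (· ≥ ·) → (∀ x ∈ l, 1 ≤ x ∧ x ≤ p) → l.sum = rem →
      good (acc.reverse ++ l) = true := by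
  intro f
  induction f with
  | zero =>
    intro rem p acc h
    exact Bool.noConfusion h
  | succ f ih =>
    intro rem p acc h l hl hx hs
    unfold all at h
    cases l with
    | nil =>
      simp only [List.sum_nil] at hs
      subst hs
      simpa using h
    | cons x l =>
      have hx0 := hx x (by simp)
      simp only [List.sum_cons] at hs
      have hrem : Nat.beq rem 0 = false := by
        rw [Bool.eq_false_iff]
        intro h'
        have := Nat.eq_of_beq_eq_true h'
        omega
      have hp : Nat.beq p 0 = false := by
        rw [Bool.eq_false_iff]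
        intro h'
        have := Nat.eq_of_beq_eq_true h'
        omega
      rw [hrem, hp, cond_false, Bool.false_or, Bool.and_eq_true, Bool.or_eq_true] at h
      obtain ⟨h1, h2⟩ := h
      by_cases hxp : x = p
      · subst hxp
        rcases h1 with h1 | h1
        · have := Nat.le_of_ble_eq_true h1
          omega
        · have := ih (rem - x) x (x :: acc) h1 l (List.Pairwise.of_cons hl) (fun y hy =>
            ⟨(hx y (by simp [hy])).1, List.rel_of_pairwise_cons hl hy⟩) (by omega)
          simpa using this
      · refine ih rem (p - 1) acc h2 (x :: l) hl (fun y hy => ?_) (by simp; omega)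
        refine ⟨(hx y hy).1, ?_⟩
        rcases List.mem_cons.1 hy with rfl | hy'
        · omega
        · have := List.rel_of_pairwise_cons hl hy'
          omega

theorem all_ok : all 63 31 31 [] = true := by decide +kernel

theorem good_of_sorted (l : List ℕ) (hl : l.Pairwise (· ≥ ·)) (hpos : ∀ x ∈ l, 1 ≤ x)
    (hs : l.sum = 31) : good l = true := by
  have := all_sound 63 31 31 [] all_ok l hl (fun x hx => ⟨hpos x hx, ?_⟩) hs
  · simpa using this
  · rw [← hs]
    exact List.single_le_sum (fun _ _ => Nat.zero_le _) x hx

end Pool.Agent.Q279.SpiderPack
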