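import Mathlib
import Pool.Agent.Q279.SpiderCoeff
import Pool.Agent.Q279.SpiderPack

/-!
# The spider with legs of lengths 15, 12, 2, 1
-/

set_option autoImplicit false

namespace Pool.Agent.Q279.SpiderTree

open Pool.Agent.Q279.SpiderDefs Pool.Agent.Q279.SpiderCoeff Pool.Agent.Q279.SpiderPack

/-- the parent of a vertex; the centre is `0` -/
def par (v : ℕ) : ℕ := if v = 16 ∨ v = 28 ∨ v = 30 then 0 else v - 1

theorem par_le (v : ℕ) : par v ≤ v := by
  unfold par
  split_ifs <;> omega

theorem par_lt (v : ℕ) (hv : v ≠ 0) : par v < v := by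
  unfold par
  split_ifs <;> omega

/-- the spider -/
def T : SimpleGraph (Fin 31) where
  Adj u v := (u.val ≠ 0 ∧ v.val = par u.val) ∨ (v.val ≠ 0 ∧ u.val = par v.val)
  symm := ⟨fun _ _ h => h.symm⟩
  loopless := ⟨fun u h => by
    rcases h with h | h
    · have := par_lt u.val h.1
      omega
    · have := par_lt u.val h.1
      omega⟩

instance : DecidableRel T.Adj := fun u v =>
  inferInstanceAs (Decidable ((u.val ≠ 0 ∧ v.val = par u.val) ∨ (v.val ≠ 0 ∧ u.val = par v.val)))

theorem conn_of_root (S : Finset (Fin 31)) (r : Fin 31) (hr : r ∈ S)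
    (h : ∀ v ∈ S, v ≠ r → ∃ u ∈ S, u.val < v.val ∧ T.Adj u v) :
    (T.induce (S : Set (Fin 31))).Connected := by
  have key : ∀ n : ℕ, ∀ v : Fin 31, ∀ hv : v ∈ S, v.val = n →
      (T.induce (S : Set (Fin 31))).Reachable ⟨r, hr⟩ ⟨v, hv⟩ := by
    intro n
    induction n using Nat.strong_induction_on with
    | _ n ih =>
      intro v hv hn
      by_cases hvr : v = r
      · subst hvr
        exact SimpleGraph.Reachable.refl _
      · obtain ⟨u, hu, huv, hadj⟩ := h v hv hvr
        have h1 := ih u.val (by omega) u hu rfl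
        refine h1.trans (SimpleGraph.Adj.reachable ?_)
        exact hadj
  rw [SimpleGraph.connected_iff]
  refine ⟨fun a b => ?_, ⟨⟨r, hr⟩⟩⟩
  exact (key _ a.1 a.2 rfl).symm.trans (key _ b.1 b.2 rfl)

/-- an interval of vertices -/
def blk (s t : ℕ) : Finset (Fin 31) := Finset.univ.filter fun v => s ≤ v.val ∧ v.val < t

theorem blk_card (s t : ℕ) (ht : t ≤ 31) : (blk s t).card = t - s := by
  rw [← Finset.card_map Fin.valEmbedding, ← Nat.card_Ico]
  congr 1
  ext v
  simp only [Finset.mem_map, blk, Finset.mem_filter, Finset.mem_univ, true_and,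
    Fin.valEmbedding_apply, Finset.mem_Ico]
  constructor
  · rintro ⟨a, ha, rfl⟩
    exact ha
  · intro h
    exact ⟨⟨v, by omega⟩, h, rfl⟩

theorem blk_conn (s t : ℕ) (hst : s < t) (ht : t ≤ 31)
    (hno : ∀ v, s < v → v < t → v ≠ 16 ∧ v ≠ 28 ∧ v ≠ 30) :
    (T.induce (blk s t : Set (Fin 31))).Connected := by
  refine conn_of_root (blk s t) ⟨s, by omega⟩ (by simp [blk, hst]) ?_
  intro v hv hvs
  simp only [blk, Finset.mem_filter, Finset.mem_univ, true_and] at hv
  have h1 : v.val ≠ s := fun h => hvs (Fin.ext h)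
  have h2 := hno v.val (by omega) hv.2
  refine ⟨⟨v.val - 1, by omega⟩, ?_, ?_, ?_⟩
  · simp only [blk, Finset.mem_filter, Finset.mem_univ, true_and]
    omega
  · show v.val - 1 < v.val
    omega
  · right
    refine ⟨by omega, ?_⟩
    show v.val - 1 = par v.val
    unfold par
    rw [if_neg (by omega)]

/-- the centre with the inner parts of the legs -/
def cen (a b c d : ℕ) : Finset (Fin 31) := Finset.univ.filter fun v => v.val = 0 ∨
  (1 ≤ v.val ∧ v.val < 1 + a) ∨ (16 ≤ v.val ∧ v.val < 16 + b) ∨ (28 ≤ v.val ∧ v.val < 28 + c) ∨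
  (30 ≤ v.val ∧ v.val < 30 + d)

theorem mem_cen (a b c d : ℕ) (v : Fin 31) : v ∈ cen a b c d ↔ v.val = 0 ∨
  (1 ≤ v.val ∧ v.val < 1 + a) ∨ (16 ≤ v.val ∧ v.val < 16 + b) ∨ (28 ≤ v.val ∧ v.val < 28 + c) ∨
  (30 ≤ v.val ∧ v.val < 30 + d) := by
  simp [cen]

theorem cen_conn (a b c d : ℕ) (_ha : a ≤ 15) (hb : b ≤ 12) (hc : c ≤ 2) (hd : d ≤ 1) :
    (T.induce (cen a b c d : Set (Fin 31))).Connected := by
  refine conn_of_root _ 0 (by simp [cen]) ?_
  intro v hv hv0
  rw [mem_cen] at hv
  have h1 : v.val ≠ 0 := fun h => hv0 (Fin.ext h)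
  have h2 := par_lt v.val h1
  have h3 := v.isLt
  refine ⟨⟨par v.val, by omega⟩, ?_, h2, Or.inr ⟨h1, rfl⟩⟩
  rw [mem_cen]
  show par v.val = 0 ∨
    (1 ≤ par v.val ∧ par v.val < 1 + a) ∨ (16 ≤ par v.val ∧ par v.val < 16 + b) ∨
    (28 ≤ par v.val ∧ par v.val < 28 + c) ∨ (30 ≤ par v.val ∧ par v.val < 30 + d)
  unfold par
  split_ifs with h4
  · left; rfl
  · omega

/-- a partial connected partition whose blocks have sizes `M` and whose complement is `C` -/
def St (C : Finset (Fin 31)) (M : Multiset ℕ) : Prop :=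
  ∃ L : List (Finset (Fin 31)), L.Pairwise Disjoint ∧ (∀ B ∈ L, Disjoint B C) ∧
    (∀ v, v ∈ C ∨ ∃ B ∈ L, v ∈ B) ∧ (∀ B ∈ L, (T.induce (B : Set (Fin 31))).Connected) ∧
    ((L.map Finset.card : List ℕ) : Multiset ℕ) = M ∧ C.card + M.sum = 31

theorem St.cut {C : Finset (Fin 31)} {M : Multiset ℕ} (h : St C M) (C' B : Finset (Fin 31))
    (hC : ∀ v, v ∈ C ↔ v ∈ C' ∨ v ∈ B) (hd : ∀ v, v ∈ B → v ∉ C')
    (hB : (T.induce (B : Set (Fin 31))).Connected) : St C' (B.card ::ₘ M) := by
  obtain ⟨L, h1, h2, h3, h4, h5, h6⟩ := h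
  have hBC : ∀ v ∈ B, v ∈ C := fun v hv => (hC v).2 (Or.inr hv)
  refine ⟨B :: L, ?_, ?_, ?_, ?_, ?_, ?_⟩
  · rw [List.pairwise_cons]
    refine ⟨fun B' hB' => ?_, h1⟩
    rw [Finset.disjoint_left]
    intro v hv hv'
    exact Finset.disjoint_left.1 (h2 B' hB') hv' (hBC v hv)
  · intro B' hB'
    rw [List.mem_cons] at hB'
    rcases hB' with rfl | hB'
    · rw [Finset.disjoint_left]
      exact hd
    · rw [Finset.disjoint_left]
      intro v hv hv'
      exact Finset.disjoint_left.1 (h2 B' hB') hv ((hC v).2 (Or.inl hv'))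
  · intro v
    rcases h3 v with hv | ⟨B', hB', hv⟩
    · rcases (hC v).1 hv with hv | hv
      · exact Or.inl hv
      · exact Or.inr ⟨B, by simp, hv⟩
    · exact Or.inr ⟨B', by simp [hB'], hv⟩
  · intro B' hB'
    rw [List.mem_cons] at hB'
    rcases hB' with rfl | hB'
    · exact hB
    · exact h4 B' hB'
  · rw [List.map_cons, ← Multiset.cons_coe, h5]
  · rw [Multiset.sum_cons]
    have h7 : C = C' ∪ B := by
      ext v
      rw [Finset.mem_union, hC]
    have h8 : (C' ∪ B).card = C'.card + B.card := by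
      apply Finset.card_union_of_disjoint
      rw [Finset.disjoint_left]
      intro v hv hv'
      exact hd v hv' hv
    rw [h7, h8] at h6
    omega

theorem pack_sound : ∀ (l : List ℕ) (a b c d : ℕ) (M : Multiset ℕ), a ≤ 15 → b ≤ 12 → c ≤ 2 →
    d ≤ 1 → St (cen a b c d) M → (∀ x ∈ l, 1 ≤ x) → pack l a b c d = true →
    ∃ a' b' c' d', a' ≤ 15 ∧ b' ≤ 12 ∧ c' ≤ 2 ∧ d' ≤ 1 ∧
      St (cen a' b' c' d') ((l : Multiset ℕ) + M) := by
  intro l
  induction l with
  | nil =>
    intro a b c d M ha hb hc hd h _ _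
    exact ⟨a, b, c, d, ha, hb, hc, hd, by simpa using h⟩
  | cons m l ih =>
    intro a b c d M ha hb hc hd h hl hp
    have hm : 1 ≤ m := hl m (by simp)
    have hl' : ∀ x ∈ l, 1 ≤ x := fun x hx => hl x (by simp [hx])
    have hM : ((m :: l : List ℕ) : Multiset ℕ) + M = (l : Multiset ℕ) + (m ::ₘ M) := by
      rw [← Multiset.cons_coe, Multiset.cons_add, Multiset.add_cons]
    rw [hM]
    unfold pack at hp
    rw [Bool.or_eq_true, Bool.or_eq_true, Bool.or_eq_true, Bool.and_eq_true, Bool.and_eq_true,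
      Bool.and_eq_true, Bool.and_eq_true] at hp
    rcases hp with ⟨h1, h2⟩ | ⟨h1, h2⟩ | ⟨h1, h2⟩ | ⟨h1, h2⟩
    · have h1 := Nat.le_of_ble_eq_true h1
      have h3 := h.cut (cen (a - m) b c d) (blk (1 + a - m) (1 + a))
        (by intro v; simp only [mem_cen, blk, Finset.mem_filter, Finset.mem_univ, true_and]; omega)
        (by intro v; simp only [mem_cen, blk, Finset.mem_filter, Finset.mem_univ, true_and]; omega)
        (blk_conn _ _ (by omega) (by omega) (by intro v; omega))
      rw [blk_card _ _ (by omega), show 1 + a - (1 + a - m) = m by omega] at h3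
      exact ih _ _ _ _ _ (by omega) hb hc hd h3 hl' h2
    · have h1 := Nat.le_of_ble_eq_true h1
      have h3 := h.cut (cen a (b - m) c d) (blk (16 + b - m) (16 + b))
        (by intro v; simp only [mem_cen, blk, Finset.mem_filter, Finset.mem_univ, true_and]; omega)
        (by intro v; simp only [mem_cen, blk, Finset.mem_filter, Finset.mem_univ, true_and]; omega)
        (blk_conn _ _ (by omega) (by omega) (by intro v; omega))
      rw [blk_card _ _ (by omega), show 16 + b - (16 + b - m) = m by omega] at h3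
      exact ih _ _ _ _ _ ha (by omega) hc hd h3 hl' h2
    · have h1 := Nat.le_of_ble_eq_true h1
      have h3 := h.cut (cen a b (c - m) d) (blk (28 + c - m) (28 + c))
        (by intro v; simp only [mem_cen, blk, Finset.mem_filter, Finset.mem_univ, true_and]; omega)
        (by intro v; simp only [mem_cen, blk, Finset.mem_filter, Finset.mem_univ, true_and]; omega)
        (blk_conn _ _ (by omega) (by omega) (by intro v; omega))
      rw [blk_card _ _ (by omega), show 28 + c - (28 + c - m) = m by omega] at h3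
      exact ih _ _ _ _ _ ha hb (by omega) hd h3 hl' h2
    · have h1 := Nat.le_of_ble_eq_true h1
      have h3 := h.cut (cen a b c (d - m)) (blk (30 + d - m) (30 + d))
        (by intro v; simp only [mem_cen, blk, Finset.mem_filter, Finset.mem_univ, true_and]; omega)
        (by intro v; simp only [mem_cen, blk, Finset.mem_filter, Finset.mem_univ, true_and]; omega)
        (blk_conn _ _ (by omega) (by omega) (by intro v; omega))
      rw [blk_card _ _ (by omega), show 30 + d - (30 + d - m) = m by omega] at h3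
      exact ih _ _ _ _ _ ha hb hc (by omega) h3 hl' h2

theorem isCPET : IsCPET T := by
  intro lam
  obtain ⟨l, hl, hs⟩ : ∃ l : List ℕ, l.Pairwise (· ≥ ·) ∧ (l : Multiset ℕ) = lam.parts :=
    ⟨lam.parts.sort (· ≥ ·), Multiset.pairwise_sort _ _, Multiset.sort_eq _ _⟩
  have hpos : ∀ x ∈ l, 1 ≤ x := by
    intro x hx
    apply lam.parts_pos
    rw [← hs]
    exact hx
  have hsum : l.sum = 31 := by
    rw [← lam.parts_sum, ← hs, Multiset.sum_coe]
  have hg := good_of_sorted l hl hpos hsum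
  cases l with
  | nil => simp at hsum
  | cons x t =>
    unfold good at hg
    rw [List.tail_cons] at hg
    have h0 : St (cen 15 12 2 1) 0 := by
      refine ⟨[], List.Pairwise.nil, by simp, fun v => Or.inl ?_, by simp, rfl, ?_⟩
      · rw [mem_cen]
        have := v.isLt
        omega
      · have : cen 15 12 2 1 = Finset.univ := by
          ext v
          rw [mem_cen]
          have := v.isLt
          simp only [Finset.mem_univ, iff_true]
          omega
        rw [this, Finset.card_univ, Fintype.card_fin]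
        rfl
    obtain ⟨a, b, c, d, ha, hb, hc, hd, L, h1, h2, h3, h4, h5, h6⟩ := pack_sound t 15 12 2 1 0
      le_rfl le_rfl le_rfl le_rfl h0 (fun y hy => hpos y (by simp [hy])) hg
    refine ⟨cen a b c d :: L, ⟨?_, ?_, ?_⟩, ?_⟩
    · rw [List.pairwise_cons]
      exact ⟨fun B hB => (h2 B hB).symm, h1⟩
    · intro v
      rcases h3 v with hv | ⟨B, hB, hv⟩
      · exact ⟨_, by simp, hv⟩
      · exact ⟨B, by simp [hB], hv⟩
    · intro B hB
      rw [List.mem_cons] at hB
      rcases hB with rfl | hB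
      · exact cen_conn a b c d ha hb hc hd
      · exact h4 B hB
    · rw [List.map_cons, ← Multiset.cons_coe, h5, ← hs, ← Multiset.cons_coe, add_zero]
      congr 1
      rw [add_zero, Multiset.sum_coe] at h6
      rw [List.sum_cons] at hsum
      omega

theorem isTree : T.IsTree := by
  rw [SimpleGraph.isTree_iff_connected_and_card]
  constructor
  · have h := cen_conn 15 12 2 1 le_rfl le_rfl le_rfl le_rfl
    have h2 : ((cen 15 12 2 1 : Finset (Fin 31)) : Set (Fin 31)) = Set.univ := by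
      rw [Set.eq_univ_iff_forall]
      intro v
      rw [Finset.mem_coe, mem_cen]
      have := v.isLt
      omega
    rw [h2] at h
    exact (SimpleGraph.induceUnivIso T).connected_iff.1 h
  · rw [Nat.card_eq_fintype_card, ← SimpleGraph.edgeFinset_card, Nat.card_eq_fintype_card,
      Fintype.card_fin]
    have : T.edgeFinset.card = 30 := by decide +kernel
    rw [this]

theorem degree_le (v : Fin 31) : (T.neighborSet v).ncard ≤ 4 := by
  have h : ∀ v, T.degree v ≤ 4 := by decide +kernel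
  rw [Set.ncard_eq_toFinset_card', ← SimpleGraph.neighborFinset_def,
    SimpleGraph.card_neighborFinset_eq_degree]
  exact h v

theorem degree_zero : (T.neighborSet 0).ncard = 4 := by
  have h : T.degree 0 = 4 := by decide +kernel
  rw [Set.ncard_eq_toFinset_card', ← SimpleGraph.neighborFinset_def,
    SimpleGraph.card_neighborFinset_eq_degree]
  exact h

section count

variable {R : Type} [CommRing R]

/-- sum over all maps to three colours, with weights `g` -/
def S (n : ℕ) (g : ℕ → Fin 3 → R) : R :=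
  ∑ κ : Fin (n + 1) → Fin 3, ∏ v : Fin (n + 1), (g v.val (κ v) *
    if v.val = 0 ∨ κ v ≠ κ ⟨par v.val, (par_le v.val).trans_lt v.isLt⟩ then 1 else 0)

theorem S_congr (n : ℕ) (g g' : ℕ → Fin 3 → R) (h : ∀ u ≤ n, ∀ a, g u a = g' u a) :
    S n g = S n g' := by
  unfold S
  apply Finset.sum_congr rfl
  intro κ _
  apply Finset.prod_congr rfl
  intro v _
  rw [h v.val (by omega)]

theorem S_zero (g : ℕ → Fin 3 → R) : S 0 g = ∑ a, g 0 a := by
  unfold S
  refine Fintype.sum_equiv (Equiv.funUnique (Fin 1) (Fin 3)) _ _ ?_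
  intro κ
  simp

theorem S_succ (n : ℕ) (g : ℕ → Fin 3 → R) :
    S (n + 1) g = S n (fun u a => g u a *
      (if u = par (n + 1) then ∑ b, (if b ≠ a then g (n + 1) b else 0) else 1)) := by
  unfold S
  have hp : par (n + 1) < n + 1 := par_lt _ (by omega)
  rw [← (Fin.snocEquiv fun _ : Fin (n + 2) => Fin 3).sum_comp, Fintype.sum_prod_type_right]
  apply Finset.sum_congr rfl
  intro κ _
  have h1 : ∀ b : Fin 3, ∏ v : Fin (n + 2),
      (g v.val ((Fin.snocEquiv fun _ : Fin (n + 2) => Fin 3) (b, κ) v) *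
      if v.val = 0 ∨ (Fin.snocEquiv fun _ : Fin (n + 2) => Fin 3) (b, κ) v ≠
        (Fin.snocEquiv fun _ : Fin (n + 2) => Fin 3) (b, κ)
          ⟨par v.val, (par_le v.val).trans_lt v.isLt⟩ then 1 else 0) =
      (∏ v : Fin (n + 1), (g v.val (κ v) *
        if v.val = 0 ∨ κ v ≠ κ ⟨par v.val, (par_le v.val).trans_lt v.isLt⟩ then 1 else 0)) *
      (if b ≠ κ ⟨par (n + 1), hp⟩ then g (n + 1) b else 0) := by
    intro b
    have hsn : ∀ i : Fin (n + 1), (Fin.snocEquiv fun _ : Fin (n + 2) => Fin 3) (b, κ)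
        (Fin.castSucc i) = κ i := by
      intro i
      simp [Fin.snocEquiv]
    rw [Fin.prod_univ_castSucc]
    congr 1
    · apply Finset.prod_congr rfl
      intro v _
      have e1 : (Fin.snocEquiv fun _ : Fin (n + 2) => Fin 3) (b, κ) v.castSucc = κ v := by
        simp [Fin.snocEquiv]
      have e2 : (Fin.snocEquiv fun _ : Fin (n + 2) => Fin 3) (b, κ)
          ⟨par v.castSucc.val, (par_le v.castSucc.val).trans_lt v.castSucc.isLt⟩ =
          κ ⟨par v.val, (par_le v.val).trans_lt v.isLt⟩ := by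
        have e3 : (⟨par v.castSucc.val, (par_le v.castSucc.val).trans_lt v.castSucc.isLt⟩ :
          Fin (n + 2)) = Fin.castSucc ⟨par v.val, (par_le v.val).trans_lt v.isLt⟩ := rfl
        rw [e3]
        exact hsn _
      rw [e1, e2]
      rfl
    · have e1 : (Fin.snocEquiv fun _ : Fin (n + 2) => Fin 3) (b, κ) (Fin.last (n + 1)) = b := by
        simp [Fin.snocEquiv]
      have e2 : (Fin.snocEquiv fun _ : Fin (n + 2) => Fin 3) (b, κ)
          ⟨par (Fin.last (n + 1)).val, (par_le _).trans_lt (Fin.last (n + 1)).isLt⟩ =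
          κ ⟨par (n + 1), hp⟩ := by
        have e3 : (⟨par (Fin.last (n + 1)).val, (par_le _).trans_lt (Fin.last (n + 1)).isLt⟩ :
          Fin (n + 2)) = Fin.castSucc ⟨par (n + 1), hp⟩ := rfl
        rw [e3]
        exact hsn _
      rw [e1, e2]
      have e4 : (Fin.last (n + 1)).val = n + 1 := rfl
      rw [e4]
      by_cases h : b ≠ κ ⟨par (n + 1), hp⟩
      · rw [if_pos (Or.inr h), if_pos h, mul_one]
      · rw [if_neg h, if_neg (by omega), mul_zero]
  simp only [h1]
  rw [← Finset.mul_sum]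
  have h2 : ∏ v : Fin (n + 1), ((g v.val (κ v) *
      (if v.val = par (n + 1) then ∑ b, (if b ≠ κ v then g (n + 1) b else 0) else 1)) *
        if v.val = 0 ∨ κ v ≠ κ ⟨par v.val, (par_le v.val).trans_lt v.isLt⟩ then 1 else 0) =
      (∏ v : Fin (n + 1), (g v.val (κ v) *
        if v.val = 0 ∨ κ v ≠ κ ⟨par v.val, (par_le v.val).trans_lt v.isLt⟩ then 1 else 0)) *
      ∏ v : Fin (n + 1), (if v = ⟨par (n + 1), hp⟩ then
        ∑ b, (if b ≠ κ v then g (n + 1) b else 0) else 1) := by
    rw [← Finset.prod_mul_distrib]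
    apply Finset.prod_congr rfl
    intro v _
    have h3 : (v = ⟨par (n + 1), hp⟩) ↔ v.val = par (n + 1) := by
      rw [Fin.ext_iff]
    simp only [h3]
    ring
  rw [h2, Finset.prod_ite_eq' Finset.univ]
  simp

/-- messages along a leg -/
def msg (W : Fin 3 → R) : ℕ → Fin 3 → R
  | 0, _ => 1
  | k + 1, a => ∑ b, (if b ≠ a then W b * msg W k b else 0)

/-- elimination of a leg whose first vertex is `b` -/
theorem leg (W : Fin 3 → R) (b : ℕ) (hb : 1 ≤ b) (hpb : par b = 0) (len : ℕ) :
    ∀ (j : ℕ) (g : ℕ → Fin 3 → R), (∀ v, b ≤ v → v ≤ b + len → g v = W) →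
    (∀ v, b < v → v ≤ b + len → par v = v - 1) →
    S (b + len) (fun u a => g u a * (if u = b + len then msg W j a else 1)) =
      S (b - 1) (fun u a => g u a * (if u = 0 then msg W (j + len + 1) a else 1)) := by
  induction len with
  | zero =>
    intro j g hg hp
    obtain ⟨c, rfl⟩ : ∃ c, b = c + 1 := ⟨b - 1, by omega⟩
    rw [add_zero, S_succ, hpb]
    apply S_congr
    intro u hu a
    have h1 : u ≠ c + 1 := by omega
    simp only [if_neg h1, mul_one, add_zero]
    congr 1
    split_ifs with h2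
    · simp only [msg]
      apply Finset.sum_congr rfl
      intro x _
      rw [hg (c + 1) le_rfl (by omega)]
    · rfl
  | succ len ih =>
    intro j g hg hp
    have e : b + (len + 1) = (b + len) + 1 := by omega
    rw [e, S_succ]
    have hpar : par (b + len + 1) = b + len := by
      rw [hp _ (by omega) (by omega)]
      omega
    rw [hpar]
    have h1 := ih (j + 1) g (fun v hv hv' => hg v hv (by omega)) (fun v hv hv' => hp v hv (by omega))
    have e2 : j + 1 + len + 1 = j + (len + 1) + 1 := by omega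
    rw [e2] at h1
    rw [← h1]
    apply S_congr
    intro u hu a
    have h2 : u ≠ b + len + 1 := by omega
    simp only [if_neg h2, mul_one]
    congr 1
    split_ifs with h3
    · simp only [msg]
      apply Finset.sum_congr rfl
      intro x _
      rw [hg (b + len + 1) (by omega) (by omega)]
    · rfl

theorem msg_succ (W : Fin 3 → R) (k : ℕ) :
    msg W (k + 1) 0 = W 1 * msg W k 1 + W 2 * msg W k 2 ∧
    msg W (k + 1) 1 = W 0 * msg W k 0 + W 2 * msg W k 2 ∧
    msg W (k + 1) 2 = W 0 * msg W k 0 + W 1 * msg W k 1 := by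
  refine ⟨?_, ?_, ?_⟩ <;> simp [msg, Fin.sum_univ_three]

/-- the three weights -/
def W3 (e : R) : Fin 3 → R := fun c => w e c.val

theorem W3_0 (e : R) : W3 e 0 = 1 + e := rfl
theorem W3_1 (e : R) : W3 e 1 = -1 + e := rfl
theorem W3_2 (e : R) : W3 e 2 = -2 * e := rfl

theorem msg1 (e : R) : msg (W3 e) 1 0 = -1 - e ∧ msg (W3 e) 1 1 = 1 - e ∧
    msg (W3 e) 1 2 = 2 * e := by
  obtain ⟨h0, h1, h2⟩ := msg_succ (W3 e) 0
  have e1 : ∀ a, msg (W3 e) 0 a = 1 := fun _ => rfl
  rw [zero_add] at h0 h1 h2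
  rw [h0, h1, h2, W3_0, W3_1, W3_2, e1, e1, e1]
  refine ⟨by ring, by ring, by ring⟩

theorem msg_even (e : R) (he : e * e = 0) (j : ℕ) :
    msg (W3 e) (2 * j + 2) 0 = (-1) ^ (j + 1) * (1 - (4 * j + 2) * e) ∧
    msg (W3 e) (2 * j + 2) 1 = (-1) ^ (j + 1) * (1 + (4 * j + 2) * e) ∧
    msg (W3 e) (2 * j + 2) 2 = (-1) ^ (j + 1) * 2 := by
  induction j with
  | zero =>
    obtain ⟨h0, h1, h2⟩ := msg_succ (W3 e) 1
    obtain ⟨a0, a1, a2⟩ := msg1 e
    rw [mul_zero, zero_add]
    rw [h0, h1, h2, W3_0, W3_1, W3_2, a0, a1, a2]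
    refine ⟨?_, ?_, ?_⟩
    · push_cast
      linear_combination (-5 : R) * he
    · push_cast
      linear_combination (-5 : R) * he
    · linear_combination (-2 : R) * he
  | succ j ih =>
    obtain ⟨b0, b1, b2⟩ := ih
    obtain ⟨h0, h1, h2⟩ := msg_succ (W3 e) (2 * j + 2)
    obtain ⟨k0, k1, k2⟩ := msg_succ (W3 e) (2 * j + 2 + 1)
    have e1 : 2 * (j + 1) + 2 = 2 * j + 2 + 1 + 1 := by ring
    rw [e1, k0, k1, k2, h0, h1, h2, b0, b1, b2, W3_0, W3_1, W3_2]
    have e2 : ((-1 : R)) ^ (j + 1 + 1) = - (-1) ^ (j + 1) := by ring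
    rw [e2]
    generalize ((-1 : R)) ^ (j + 1) = s
    push_cast
    refine ⟨?_, ?_, ?_⟩
    · linear_combination (s * (-(4 * j + 2)) * (e - 1) - s * (4 * j + 5) - 4 * s * (1 - (4 * j + 2))) * he
    · linear_combination (s * (4 * j + 2) * (1 + e) - s * (4 * j + 5) - 4 * s * (1 - (4 * j + 2))) * he
    · linear_combination (-6 * s) * he

theorem S_value (e : R) (he : e * e = 0) : S 30 (fun _ => W3 e) = 14 * e := by
  have l4 := leg (W3 e) 30 (by norm_num) rfl 0 0 (fun _ => W3 e) (fun _ _ _ => rfl)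
    (fun v hv hv' => by omega)
  have l3 := leg (W3 e) 28 (by norm_num) rfl 1 0 (fun u a => W3 e a *
    (if u = 0 then msg (W3 e) 1 a else 1)) (fun v hv hv' => by
      funext a
      rw [if_neg (by omega), mul_one])
    (fun v hv hv' => by unfold par; rw [if_neg (by omega)])
  have l2 := leg (W3 e) 16 (by norm_num) rfl 11 0 (fun u a => W3 e a *
    (if u = 0 then msg (W3 e) 1 a else 1) * (if u = 0 then msg (W3 e) 2 a else 1))
    (fun v hv hv' => by
      funext a
      rw [if_neg (by omega), if_neg (by omega), mul_one, mul_one])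
    (fun v hv hv' => by unfold par; rw [if_neg (by omega)])
  have l1 := leg (W3 e) 1 (by norm_num) rfl 14 0 (fun u a => W3 e a *
    (if u = 0 then msg (W3 e) 1 a else 1) * (if u = 0 then msg (W3 e) 2 a else 1) *
      (if u = 0 then msg (W3 e) 12 a else 1))
    (fun v hv hv' => by
      funext a
      rw [if_neg (by omega), if_neg (by omega), if_neg (by omega), mul_one, mul_one, mul_one])
    (fun v hv hv' => by unfold par; rw [if_neg (by omega)])
  have m0 : ∀ a, msg (W3 e) 0 a = 1 := fun _ => rfl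
  norm_num [m0] at l4 l3 l2 l1
  rw [l4, l3, l2, l1, S_zero, Fin.sum_univ_three]
  obtain ⟨a0, a1, a2⟩ := msg1 e
  obtain ⟨b0, b1, b2⟩ := msg_even e he 0
  obtain ⟨c0, c1, c2⟩ := msg_even e he 5
  obtain ⟨d0, d1, d2⟩ := msg_even e he 6
  obtain ⟨f0, f1, f2⟩ := msg_succ (W3 e) 14
  norm_num at b0 b1 b2 c0 c1 c2 d0 d1 d2 f0 f1 f2
  rw [d1, d2] at f0
  rw [d0, d2] at f1
  rw [d0, d1] at f2
  simp only [if_true, a0, a1, a2, b0, b1, b2, c0, c1, c2, f0, f1, f2, W3_0, W3_1, W3_2]
  have e2 : e ^ 2 = 0 := by rw [sq, he]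
  have e3 : e ^ 3 = 0 := by rw [pow_succ, e2, zero_mul]
  have e4 : e ^ 4 = 0 := by rw [pow_succ, e3, zero_mul]
  have e5 : e ^ 5 = 0 := by rw [pow_succ, e4, zero_mul]
  ring_nf
  simp only [e3, e5, zero_mul, add_zero, sub_zero]

theorem Z_reduce {n : ℕ} (hn : 3 ≤ n) (e : R) (G : SimpleGraph (Fin n)) : Z e G =
    open Classical in
    ∑ κ : Fin n → Fin 3, if (∀ u v, G.Adj u v → κ u ≠ κ v) then ∏ v, W3 e (κ v) else 0 := by
  classical
  unfold Z
  symm
  refine Fintype.sum_of_injective (fun κ v => Fin.castLE hn (κ v)) ?_ _ _ ?_ ?_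
  · intro κ κ' h
    funext v
    have := congrFun h v
    exact Fin.castLE_injective hn this
  · intro κ hκ
    have h1 : ∃ v, 3 ≤ (κ v).val := by
      by_contra hcon
      push Not at hcon
      apply hκ
      exact ⟨fun v => ⟨(κ v).val, hcon v⟩, funext fun v => Fin.ext rfl⟩
    obtain ⟨v, hv⟩ := h1
    rw [Finset.prod_eq_zero (Finset.mem_univ v) (w_zero e _ hv), ite_self]
  · intro κ
    have h1 : (∀ u v, G.Adj u v → κ u ≠ κ v) ↔
        (∀ u v, G.Adj u v → Fin.castLE hn (κ u) ≠ Fin.castLE hn (κ v)) := by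
      constructor
      · intro h u v huv h'
        exact h u v huv (Fin.castLE_injective hn h')
      · intro h u v huv h'
        exact h u v huv (by rw [h'])
    by_cases h : ∀ u v, G.Adj u v → κ u ≠ κ v
    · rw [if_pos h, if_pos (h1.1 h)]
      rfl
    · rw [if_neg h, if_neg (fun h' => h (h1.2 h'))]

theorem Z_eq_S (e : R) : Z e T = S 30 (fun _ => W3 e) := by
  classical
  rw [Z_reduce (by norm_num)]
  unfold S
  apply Finset.sum_congr rfl
  intro κ _
  split_ifs with h
  · apply Finset.prod_congr rfl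
    intro v _
    rw [if_pos, mul_one]
    by_cases hv : v.val = 0
    · exact Or.inl hv
    · right
      exact h v _ (Or.inl ⟨hv, rfl⟩)
  · push Not at h
    obtain ⟨u, v, huv, hc⟩ := h
    symm
    have key : ∀ a b : Fin 31, a.val ≠ 0 → b.val = par a.val → κ a = κ b →
        ∏ v : Fin 31, (W3 e (κ v) *
          if v.val = 0 ∨ κ v ≠ κ ⟨par v.val, (par_le v.val).trans_lt v.isLt⟩ then 1 else 0) =
          0 := by
      intro a b ha hb hab
      apply Finset.prod_eq_zero (Finset.mem_univ a)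
      rw [if_neg, mul_zero]
      rintro (h | h)
      · exact ha h
      · exact h (hab.trans (congrArg κ (Fin.ext hb)))
    rcases huv with huv | huv
    · exact key u v huv.1 huv.2 hc
    · exact key v u huv.1 huv.2 hc.symm

end count

/-- The coefficient of `e_{(3, 2^14)}` is `7`. -/
theorem coeff_eq (lam : Nat.Partition 31) (hlam : lam.parts = 3 ::ₘ Multiset.replicate 14 2) :
    eCoeff T lam = 7 := by
  have he : (DualNumber.eps : DualNumber ℚ) * DualNumber.eps = 0 := DualNumber.eps_mul_eps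
  have h2 : (2 : DualNumber ℚ) * DualNumber.eps ≠ 0 := by
    intro h
    rw [two_mul] at h
    have h6 := congrArg TrivSqZeroExt.snd h
    rw [TrivSqZeroExt.snd_add, DualNumber.snd_eps, TrivSqZeroExt.snd_zero] at h6
    norm_num at h6
  have h3 := Z_eq (DualNumber.eps : DualNumber ℚ) he h2 T lam hlam
  rw [Z_eq_S, S_value _ he] at h3
  have h4 : ∀ q : ℚ, TrivSqZeroExt.snd (algebraMap ℚ (DualNumber ℚ) q * DualNumber.eps) = q := by
    intro q
    rw [← Algebra.smul_def, TrivSqZeroExt.snd_smul, DualNumber.snd_eps, smul_eq_mul, mul_one]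
  have h5 : (14 : DualNumber ℚ) = algebraMap ℚ (DualNumber ℚ) 14 := (map_ofNat _ 14).symm
  have h6 : (2 : DualNumber ℚ) = algebraMap ℚ (DualNumber ℚ) 2 := (map_ofNat _ 2).symm
  rw [h5, h6, ← mul_assoc, ← map_mul] at h3
  have h7 := congrArg TrivSqZeroExt.snd h3
  rw [h4, h4] at h7
  linarith

end Pool.Agent.Q279.SpiderTree
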