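import Mathlib

/-! Total domination in graphs. -/

namespace Pool.Agent.Q279.TD

variable {V : Type*}

/-- `S` is a total dominating set: every vertex has a neighbour in `S`. -/
def IsTotalDominating (G : SimpleGraph V) (S : Finset V) : Prop :=
  ∀ v, ∃ w ∈ S, G.Adj v w

/-- The total domination number: the minimum size of a total dominating set. -/
noncomputable def totalDominationNumber (G : SimpleGraph V) : ℕ :=
  sInf {k | ∃ S : Finset V, S.card = k ∧ IsTotalDominating G S}

theorem tdn_le {G : SimpleGraph V} {S : Finset V} (h : IsTotalDominating G S) :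
    totalDominationNumber G ≤ S.card :=
  Nat.sInf_le ⟨S, rfl, h⟩

theorem exists_tdn [Fintype V] {G : SimpleGraph V} (h : ∀ v, ∃ w, G.Adj v w) :
    ∃ S : Finset V, S.card = totalDominationNumber G ∧ IsTotalDominating G S := by
  have hne : {k | ∃ S : Finset V, S.card = k ∧ IsTotalDominating G S}.Nonempty := by
    refine ⟨(Finset.univ : Finset V).card, Finset.univ, rfl, fun v => ?_⟩
    obtain ⟨w, hw⟩ := h v
    exact ⟨w, Finset.mem_univ _, hw⟩
  exact Nat.sInf_mem hne

end Pool.Agent.Q279.TD
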