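import Mathlib

/-! A bound for the number of pairs in a relation between two finite sets `A`, `B` in which all
rows and columns are nonempty, any `s` rows have a common non-neighbour and any `r` columns have
a common non-neighbour, `r < s`: at most `(|A| - r) (|B| - s) + r`. -/

namespace Pool.Agent.Q279.TD

open Finset

variable {V : Type*}

open Classical in
/-- Degree of a row. -/
noncomputable def rd (R : V → V → Prop) (B : Finset V) (a : V) : ℕ :=
  (B.filter (fun b => R a b)).card

/-- Number of related pairs in `A × B`. -/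
noncomputable def e (R : V → V → Prop) (A B : Finset V) : ℕ := ∑ a ∈ A, rd R B a

theorem e_flip (R : V → V → Prop) (A B : Finset V) : e (flip R) B A = e R A B := by
  classical
  unfold e rd
  have := Finset.sum_card_bipartiteAbove_eq_sum_card_bipartiteBelow (s := A) (t := B) R
  unfold Finset.bipartiteAbove Finset.bipartiteBelow at this
  rw [eq_comm]
  convert this using 2
  rfl

/-- The hypotheses. -/
structure Good (R : V → V → Prop) (A B : Finset V) (r s : ℕ) : Prop where
  row : ∀ a ∈ A, ∃ b ∈ B, R a b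
  col : ∀ b ∈ B, ∃ a ∈ A, R a b
  hs : ∀ S ⊆ A, S.card ≤ s → ∃ b ∈ B, ∀ a ∈ S, ¬ R a b
  hr : ∀ T ⊆ B, T.card ≤ r → ∃ a ∈ A, ∀ b ∈ T, ¬ R a b

theorem Good.flip {R : V → V → Prop} {A B : Finset V} {r s : ℕ} (h : Good R A B r s) :
    Good (flip R) B A s r :=
  ⟨h.col, h.row, h.hr, h.hs⟩

theorem Good.mono {R : V → V → Prop} {A B : Finset V} {r s r' s' : ℕ} (h : Good R A B r s)
    (h1 : r' ≤ r) (h2 : s' ≤ s) : Good R A B r' s' :=
  ⟨h.row, h.col, fun S hS hc => h.hs S hS (hc.trans h2), fun T hT hc => h.hr T hT (hc.trans h1)⟩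

open Classical in
theorem Good.hit {R : V → V → Prop} {A B : Finset V} {r s : ℕ} (h : Good R A B r s)
    {S : Finset V} (hS : S ⊆ A) :
    s < S.card + (B.filter (fun b => ∀ a ∈ S, ¬ R a b)).card := by
  by_contra hcon
  push Not at hcon
  set D := B.filter (fun b => ∀ a ∈ S, ¬ R a b) with hD
  have hf : ∀ b, ∃ a, b ∈ B → a ∈ A ∧ R a b := by
    intro b
    by_cases hb : b ∈ B
    · obtain ⟨a, ha, hab⟩ := h.col b hb
      exact ⟨a, fun _ => ⟨ha, hab⟩⟩
    · exact ⟨b, fun hb' => absurd hb' hb⟩
  choose f hf using hf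
  have hsub : S ∪ D.image f ⊆ A := by
    intro x hx
    rcases mem_union.1 hx with hx | hx
    · exact hS hx
    · obtain ⟨b, hb, rfl⟩ := mem_image.1 hx
      exact (hf b (mem_filter.1 hb).1).1
  have hcard : (S ∪ D.image f).card ≤ s :=
    (card_union_le _ _).trans ((Nat.add_le_add_left card_image_le _).trans hcon)
  obtain ⟨b, hb, hbn⟩ := h.hs _ hsub hcard
  have hbD : b ∈ D := mem_filter.2 ⟨hb, fun a ha => hbn a (mem_union_left _ ha)⟩
  exact hbn (f b) (mem_union_right _ (mem_image_of_mem f hbD)) (hf b hb).2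

open Classical in
theorem rd_add (R : V → V → Prop) (B : Finset V) (a : V) :
    rd R B a + (B.filter (fun b => ¬ R a b)).card = B.card := by
  unfold rd
  rw [Finset.card_filter_add_card_filter_not]

theorem Good.rd_le {R : V → V → Prop} {A B : Finset V} {r s : ℕ} (h : Good R A B r s)
    {a : V} (ha : a ∈ A) : rd R B a + s ≤ B.card := by
  classical
  have h1 := h.hit (S := {a}) (by simpa using ha)
  have h2 := rd_add R B a
  have h3 : (B.filter (fun b => ∀ a' ∈ ({a} : Finset V), ¬ R a' b)) =
      B.filter (fun b => ¬ R a b) := by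
    congr 1
    ext b
    simp
  rw [h3, card_singleton] at h1
  omega

theorem Good.s_lt {R : V → V → Prop} {A B : Finset V} {r s : ℕ} (h : Good R A B r s) :
    s < A.card := by
  classical
  have h1 := h.hit (S := A) (Finset.Subset.refl A)
  have h3 : (B.filter (fun b => ∀ a' ∈ A, ¬ R a' b)) = ∅ := by
    rw [Finset.filter_eq_empty_iff]
    intro b hb hc
    obtain ⟨a, ha, hab⟩ := h.col b hb
    exact hc a ha hab
  rw [h3, card_empty] at h1
  omega

theorem Good.rd_pos {R : V → V → Prop} {A B : Finset V} {r s : ℕ} (h : Good R A B r s)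
    {a : V} (ha : a ∈ A) : 1 ≤ rd R B a := by
  classical
  obtain ⟨b, hb, hab⟩ := h.row a ha
  exact card_pos.2 ⟨b, mem_filter.2 ⟨hb, hab⟩⟩

theorem e_le_mul {R : V → V → Prop} {A B : Finset V} {k : ℕ} (h : ∀ a ∈ A, rd R B a ≤ k) :
    e R A B ≤ A.card * k := by
  unfold e
  calc ∑ a ∈ A, rd R B a ≤ ∑ _a ∈ A, k := Finset.sum_le_sum h
    _ = A.card * k := by rw [sum_const, smul_eq_mul]

theorem e_erase_left [DecidableEq V] (R : V → V → Prop) {A : Finset V} (B : Finset V) {a : V}
    (ha : a ∈ A) : e R A B = rd R B a + e R (A.erase a) B := by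
  unfold e
  rw [Finset.add_sum_erase _ _ ha]

theorem e_erase_right [DecidableEq V] (R : V → V → Prop) (A : Finset V) {B : Finset V} {b : V}
    (hb : b ∈ B) : e R A B = rd (flip R) A b + e R A (B.erase b) := by
  rw [← e_flip R A B, e_erase_left (flip R) A hb, e_flip R A (B.erase b)]

open Classical in
/-- Splitting the columns along the neighbourhood of a row. -/
theorem e_split_right (R : V → V → Prop) (A B : Finset V) (P : V → Prop) :
    e R A B = e R A (B.filter P) + e R A (B.filter (fun b => ¬ P b)) := by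
  unfold e rd
  rw [← Finset.sum_add_distrib]
  refine Finset.sum_congr rfl fun a _ => ?_
  rw [Finset.filter_filter, Finset.filter_filter]
  rw [← Finset.card_union_of_disjoint]
  · congr 1
    ext b
    simp only [mem_filter, mem_union]
    tauto
  · rw [Finset.disjoint_filter]
    tauto

open Classical in
theorem e_split_left (R : V → V → Prop) (A B : Finset V) (P : V → Prop) :
    e R A B = e R (A.filter P) B + e R (A.filter (fun b => ¬ P b)) B := by
  rw [← e_flip R A B, e_split_right (flip R) B A P, e_flip, e_flip]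

/-- Induction hypothesis. -/
def IH (V : Type*) (N : ℕ) : Prop :=
  ∀ (R : V → V → Prop) (A B : Finset V) (r s X Y : ℕ), A.card + B.card < N → Good R A B r s →
    r < s → A.card = X + r → B.card = Y + s → e R A B ≤ X * Y + r

theorem base_case {R : V → V → Prop} {A B : Finset V} {s X Y : ℕ} (h : Good R A B 0 s)
    (hX : A.card = X) (hY : B.card = Y + s) : e R A B ≤ X * Y := by
  rw [← hX]
  refine e_le_mul fun a ha => ?_
  have := h.rd_le ha
  omega

open Classical in
theorem eq_of_rd_one {R : V → V → Prop} {B : Finset V} {a b : V} (h1 : rd R B a = 1) (hb : b ∈ B)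
    (hab : R a b) {b' : V} (hb' : b' ∈ B) (hab' : R a b') : b' = b := by
  unfold rd at h1
  obtain ⟨c, hc⟩ := card_eq_one.1 h1
  have e1 : b ∈ ({c} : Finset V) := hc ▸ mem_filter.2 ⟨hb, hab⟩
  have e2 : b' ∈ ({c} : Finset V) := hc ▸ mem_filter.2 ⟨hb', hab'⟩
  rw [mem_singleton.1 e1, mem_singleton.1 e2]

/-- Pendant row whose column is pendant too. -/
theorem step1a {R : V → V → Prop} {A B : Finset V} {r s X Y : ℕ} (ih : IH V (A.card + B.card))
    (h : Good R A B r s) (hr1 : 1 ≤ r) (hrs : r < s) (hX : A.card = X + r) (hY : B.card = Y + s)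
    {a b : V} (ha : a ∈ A) (hb : b ∈ B) (hab : R a b) (h1 : rd R B a = 1)
    (h2 : rd (flip R) A b = 1) : e R A B ≤ X * Y + r := by
  classical
  have hrow : ∀ b' ∈ B, R a b' → b' = b := fun b' hb' h' => eq_of_rd_one h1 hb hab hb' h'
  have hcol : ∀ a' ∈ A, R a' b → a' = a := fun a' ha' h' =>
    eq_of_rd_one (R := flip R) h2 ha hab ha' h'
  have hgood : Good R (A.erase a) (B.erase b) (r - 1) (s - 1) := by
    refine ⟨?_, ?_, ?_, ?_⟩
    · intro a' ha'
      obtain ⟨hne, ha'⟩ := mem_erase.1 ha'
      obtain ⟨b', hb', h'⟩ := h.row a' ha'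
      refine ⟨b', mem_erase.2 ⟨?_, hb'⟩, h'⟩
      rintro rfl
      exact hne (hcol a' ha' h')
    · intro b' hb'
      obtain ⟨hne, hb'⟩ := mem_erase.1 hb'
      obtain ⟨a', ha', h'⟩ := h.col b' hb'
      refine ⟨a', mem_erase.2 ⟨?_, ha'⟩, h'⟩
      rintro rfl
      exact hne (hrow b' hb' h')
    · intro S hS hc
      have hsub : insert a S ⊆ A := by
        intro x hx
        rcases mem_insert.1 hx with rfl | hx
        · exact ha
        · exact (mem_erase.1 (hS hx)).2
      have hcard : (insert a S).card ≤ s := by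
        have := card_insert_le a S
        omega
      obtain ⟨b', hb', hn⟩ := h.hs _ hsub hcard
      refine ⟨b', mem_erase.2 ⟨?_, hb'⟩, fun a' ha' => hn a' (mem_insert_of_mem ha')⟩
      rintro rfl
      exact hn a (mem_insert_self _ _) hab
    · intro T hT hc
      have hsub : insert b T ⊆ B := by
        intro x hx
        rcases mem_insert.1 hx with rfl | hx
        · exact hb
        · exact (mem_erase.1 (hT hx)).2
      have hcard : (insert b T).card ≤ r := by
        have := card_insert_le b T
        omega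
      obtain ⟨a', ha', hn⟩ := h.hr _ hsub hcard
      refine ⟨a', mem_erase.2 ⟨?_, ha'⟩, fun b' hb' => hn b' (mem_insert_of_mem hb')⟩
      rintro rfl
      exact hn b (mem_insert_self _ _) hab
  have cA := card_erase_of_mem ha
  have cB := card_erase_of_mem hb
  have hApos : 0 < A.card := card_pos.2 ⟨a, ha⟩
  have hBpos : 0 < B.card := card_pos.2 ⟨b, hb⟩
  have key := ih R (A.erase a) (B.erase b) (r - 1) (s - 1) X Y (by omega) hgood (by omega)
    (by omega) (by omega)
  have e1 := e_erase_left R B ha
  have e2 := e_erase_right R (A.erase a) hb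
  have e3 : rd (flip R) (A.erase a) b = 0 := by
    unfold rd
    rw [card_eq_zero, filter_eq_empty_iff]
    intro a' ha' h'
    obtain ⟨hne, ha'⟩ := mem_erase.1 ha'
    exact hne (hcol a' ha' h')
  omega

/-- Pendant row whose column is not pendant. -/
theorem step1b {R : V → V → Prop} {A B : Finset V} {r s X Y : ℕ} (ih : IH V (A.card + B.card))
    (h : Good R A B r s) (hr1 : 1 ≤ r) (hrs : r < s) (hX : A.card = X + r) (hY : B.card = Y + s)
    {a b : V} (ha : a ∈ A) (hb : b ∈ B) (hab : R a b) (h1 : rd R B a = 1)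
    (h2 : rd (flip R) A b ≠ 1) : e R A B ≤ X * Y + r := by
  classical
  have hrow : ∀ b' ∈ B, R a b' → b' = b := fun b' hb' h' => eq_of_rd_one h1 hb hab hb' h'
  have hgood : Good R (A.erase a) B (r - 1) s := by
    refine ⟨?_, ?_, ?_, ?_⟩
    · intro a' ha'
      exact h.row a' (mem_erase.1 ha').2
    · intro b' hb'
      by_cases hbb : b' = b
      · subst hbb
        by_contra hcon
        push Not at hcon
        apply h2
        unfold rd
        rw [card_eq_one]
        refine ⟨a, ?_⟩
        ext x
        rw [mem_filter, mem_singleton]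
        constructor
        · rintro ⟨hx, hx'⟩
          by_contra hne
          exact hcon x (mem_erase.2 ⟨hne, hx⟩) hx'
        · rintro rfl
          exact ⟨ha, hab⟩
      · obtain ⟨a', ha', h'⟩ := h.col b' hb'
        refine ⟨a', mem_erase.2 ⟨?_, ha'⟩, h'⟩
        rintro rfl
        exact hbb (hrow b' hb' h')
    · intro S hS hc
      exact h.hs S (hS.trans (erase_subset _ _)) hc
    · intro T hT hc
      have hsub : insert b T ⊆ B := by
        intro x hx
        rcases mem_insert.1 hx with rfl | hx
        · exact hb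
        · exact hT hx
      have hcard : (insert b T).card ≤ r := by
        have := card_insert_le b T
        omega
      obtain ⟨a', ha', hn⟩ := h.hr _ hsub hcard
      refine ⟨a', mem_erase.2 ⟨?_, ha'⟩, fun b' hb' => hn b' (mem_insert_of_mem hb')⟩
      rintro rfl
      exact hn b (mem_insert_self _ _) hab
  have cA := card_erase_of_mem ha
  have hApos : 0 < A.card := card_pos.2 ⟨a, ha⟩
  have key := ih R (A.erase a) B (r - 1) s X Y (by omega) hgood (by omega)
    (by omega) (by omega)
  have e1 := e_erase_left R B ha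
  omega

/-- A column with few non-neighbours. -/
theorem step2 {R : V → V → Prop} {A B : Finset V} {r s X Y : ℕ} (ih : IH V (A.card + B.card))
    (h : Good R A B r s) (hrs : r < s) (hX : A.card = X + r) (hY : B.card = Y + s)
    (hdeg : ∀ a ∈ A, rd R B a ≠ 1)
    {b : V} (hb : b ∈ B) (h2 : A.card < rd (flip R) A b + s) : e R A B ≤ X * Y + r := by
  classical
  have hsA := h.s_lt
  have hgood : Good R A (B.erase b) r s := by
    refine ⟨?_, ?_, ?_, ?_⟩
    · intro a ha
      have h1 := h.rd_pos ha
      have h3 := hdeg a ha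
      have h4 : 1 < (B.filter (fun b => R a b)).card := by
        unfold rd at h1 h3
        omega
      obtain ⟨c, hc, hcb⟩ := exists_mem_ne h4 b
      obtain ⟨hc1, hc2⟩ := mem_filter.1 hc
      exact ⟨c, mem_erase.2 ⟨hcb, hc1⟩, hc2⟩
    · intro b' hb'
      exact h.col b' (mem_erase.1 hb').2
    · intro S hS hc
      obtain ⟨S', hSS', hS'A, hS'c⟩ := exists_subsuperset_card_eq hS hc hsA.le
      obtain ⟨b', hb', hn⟩ := h.hs S' hS'A hS'c.le
      refine ⟨b', mem_erase.2 ⟨?_, hb'⟩, fun a' ha' => hn a' (hSS' ha')⟩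
      rintro rfl
      have hsub : S' ⊆ A.filter (fun a => ¬ (flip R) b' a) := by
        intro x hx
        exact mem_filter.2 ⟨hS'A hx, hn x hx⟩
      have h5 := card_le_card hsub
      have h6 := rd_add (flip R) A b'
      omega
    · intro T hT hc
      exact h.hr T (hT.trans (erase_subset _ _)) hc
  have cB := card_erase_of_mem hb
  have hBpos : 0 < B.card := card_pos.2 ⟨b, hb⟩
  have hs' := hgood.flip.s_lt
  have hd := h.flip.rd_le hb
  -- `Y ≥ 1`
  obtain ⟨a, ha⟩ : A.Nonempty := card_pos.1 (by omega)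
  have hY1 := h.rd_le ha
  have hY2 := h.rd_pos ha
  obtain ⟨Y', rfl⟩ : ∃ Y', Y = Y' + 1 := ⟨Y - 1, by omega⟩
  have key := ih R A (B.erase b) r s X Y' (by omega) hgood hrs hX (by omega)
  have e1 := e_erase_right R A hb
  have : X * (Y' + 1) = X * Y' + X := by ring
  omega

open Classical in
/-- If a row has `s + t` non-neighbours, every other row has at most `t + 1` neighbours among
them. -/
theorem Good.rd_nonnbr {R : V → V → Prop} {A B : Finset V} {r s t : ℕ} (h : Good R A B r s)
    {a : V} (ha : a ∈ A) (hU : (B.filter (fun b => ¬ R a b)).card = s + t) {a' : V}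
    (ha' : a' ∈ A) : rd R (B.filter (fun b => ¬ R a b)) a' ≤ t + 1 := by
  have h1 := h.hit (S := {a, a'}) (by
    intro x hx
    rcases mem_insert.1 hx with rfl | hx
    · exact ha
    · rw [mem_singleton.1 hx]; exact ha')
  have h2 := rd_add R (B.filter (fun b => ¬ R a b)) a'
  have h3 : (B.filter (fun b => ∀ x ∈ ({a, a'} : Finset V), ¬ R x b)) =
      (B.filter (fun b => ¬ R a b)).filter (fun b => ¬ R a' b) := by
    ext b
    simp [and_assoc]
  rw [h3] at h1
  have h4 : ({a, a'} : Finset V).card ≤ 2 := card_le_two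
  omega

/-- A row of maximum possible degree. -/
theorem step3 {R : V → V → Prop} {A B : Finset V} {r s X Y : ℕ} (ih : IH V (A.card + B.card))
    (h : Good R A B r s) (hrs : r < s) (hX : A.card = X + r) (hY : B.card = Y + s)
    {a : V} (ha : a ∈ A) (hd : rd R B a = Y) : e R A B ≤ X * Y + r := by
  classical
  have hsA := h.s_lt
  have hadd := rd_add R B a
  have hYpos := h.rd_pos ha
  have hU : (B.filter (fun b => ¬ R a b)).card = s + 0 := by omega
  have hone : ∀ a' ∈ A, rd R (B.filter (fun b => ¬ R a b)) a' ≤ 1 := by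
    intro a' ha'
    have := h.rd_nonnbr ha hU ha'
    omega
  by_cases hp : ∃ b ∈ B, R a b ∧ rd (flip R) A b = 1
  · obtain ⟨b, hb, hab, hb1⟩ := hp
    have e1 := e_split_right R A B (fun b => R a b)
    have e2 := e_erase_left R (B.filter (fun b => ¬ R a b)) ha
    have e3 : rd R (B.filter (fun b => ¬ R a b)) a = 0 := by
      unfold rd
      rw [card_eq_zero, filter_eq_empty_iff]
      intro x hx
      exact (mem_filter.1 hx).2
    have e4 : e R (A.erase a) (B.filter (fun b => ¬ R a b)) ≤ (A.erase a).card * 1 :=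
      e_le_mul fun a' ha' => hone a' (mem_erase.1 ha').2
    have e5 := e_flip R A (B.filter (fun b => R a b))
    have hbN : b ∈ B.filter (fun b => R a b) := mem_filter.2 ⟨hb, hab⟩
    have e6 := e_erase_left (flip R) A hbN
    have e7 : e (flip R) ((B.filter (fun b => R a b)).erase b) A ≤
        ((B.filter (fun b => R a b)).erase b).card * X := by
      refine e_le_mul fun b' hb' => ?_
      have := h.flip.rd_le (mem_filter.1 (mem_erase.1 hb').2).1
      omega
    have c1 := card_erase_of_mem ha
    have c2 := card_erase_of_mem hbN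
    have c3 : (B.filter (fun b => R a b)).card = Y := hd
    obtain ⟨Y', rfl⟩ : ∃ Y', Y = Y' + 1 := ⟨Y - 1, by omega⟩
    have c4 : ((B.filter (fun b => R a b)).erase b).card = Y' := by omega
    rw [c4] at e7
    have : X * (Y' + 1) = Y' * X + X := by ring
    omega
  · push Not at hp
    have hgood : Good R (A.erase a) B r s := by
      refine ⟨?_, ?_, ?_, ?_⟩
      · intro a' ha'
        exact h.row a' (mem_erase.1 ha').2
      · intro b hb
        by_cases hab : R a b
        · have h3 := hp b hb hab
          have h1 := h.flip.rd_pos hb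
          have h4 : 1 < (A.filter (fun a => (flip R) b a)).card := by
            unfold rd at h1 h3
            omega
          obtain ⟨c, hc, hcb⟩ := exists_mem_ne h4 a
          obtain ⟨hc1, hc2⟩ := mem_filter.1 hc
          exact ⟨c, mem_erase.2 ⟨hcb, hc1⟩, hc2⟩
        · obtain ⟨a', ha', h'⟩ := h.col b hb
          refine ⟨a', mem_erase.2 ⟨?_, ha'⟩, h'⟩
          rintro rfl
          exact hab h'
      · intro S hS hc
        exact h.hs S (hS.trans (erase_subset _ _)) hc
      · intro T hT hc
        by_contra hcon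
        push Not at hcon
        obtain ⟨a0, ha0, hn⟩ := h.hr T hT hc
        have ha0a : a0 = a := by
          by_contra hne
          obtain ⟨b, hb, hab⟩ := hcon a0 (mem_erase.2 ⟨hne, ha0⟩)
          exact hn b hb hab
        subst ha0a
        -- a column of `U` outside `T`
        have hex : ∃ u ∈ B.filter (fun b => ¬ R a0 b), u ∉ T := by
          by_contra hall
          push Not at hall
          have : (B.filter (fun b => ¬ R a0 b)).card ≤ T.card := card_le_card hall
          omega
        obtain ⟨u, hu, huT⟩ := hex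
        obtain ⟨huB, hau⟩ := mem_filter.1 hu
        obtain ⟨a', ha', ha'u⟩ := h.col u huB
        have hne : a' ≠ a0 := by
          rintro rfl
          exact hau ha'u
        obtain ⟨b, hbT, ha'b⟩ := hcon a' (mem_erase.2 ⟨hne, ha'⟩)
        have h1 := hone a' ha'
        have hsub : ({u, b} : Finset V) ⊆
            (B.filter (fun b => ¬ R a0 b)).filter (fun b => R a' b) := by
          intro x hx
          rcases mem_insert.1 hx with rfl | hx
          · exact mem_filter.2 ⟨hu, ha'u⟩
          · rw [mem_singleton.1 hx]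
            exact mem_filter.2 ⟨mem_filter.2 ⟨hT hbT, hn b hbT⟩, ha'b⟩
        have h2 := card_le_card hsub
        have hub : u ≠ b := by
          rintro rfl
          exact huT hbT
        rw [card_pair hub] at h2
        unfold rd at h1
        omega
    have cA := card_erase_of_mem ha
    have hs' := hgood.s_lt
    obtain ⟨X', rfl⟩ : ∃ X', X = X' + 1 := ⟨X - 1, by omega⟩
    have key := ih R (A.erase a) B r s X' Y (by omega) hgood hrs (by omega) hY
    have e1 := e_erase_left R B ha
    have : (X' + 1) * Y = X' * Y + Y := by ring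
    omega

theorem e_eq_zero {R : V → V → Prop} {A B : Finset V} (h : ∀ a ∈ A, ∀ b ∈ B, ¬ R a b) :
    e R A B = 0 := by
  classical
  unfold e
  refine Finset.sum_eq_zero fun a ha => ?_
  unfold rd
  rw [card_eq_zero, filter_eq_empty_iff]
  exact fun {b} hb => h a ha b hb

theorem e_split_left' (R : V → V → Prop) {A A' R0 : Finset V} (B : Finset V) (P : V → Prop)
    (h1 : ∀ x, x ∈ A' ↔ x ∈ A ∧ P x) (h2 : ∀ x, x ∈ R0 ↔ x ∈ A ∧ ¬ P x) :
    e R A B = e R A' B + e R R0 B ∧ A'.card + R0.card = A.card := by
  classical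
  have e1 : A' = A.filter P := by ext x; rw [h1, mem_filter]
  have e2 : R0 = A.filter (fun x => ¬ P x) := by ext x; rw [h2, mem_filter]
  subst e1 e2
  refine ⟨?_, card_filter_add_card_filter_not _⟩
  rw [e_split_left R A B P]

theorem e_split_right' (R : V → V → Prop) {B B' C0 : Finset V} (A : Finset V) (P : V → Prop)
    (h1 : ∀ x, x ∈ B' ↔ x ∈ B ∧ P x) (h2 : ∀ x, x ∈ C0 ↔ x ∈ B ∧ ¬ P x) :
    e R A B = e R A B' + e R A C0 ∧ B'.card + C0.card = B.card := by
  have := e_split_left' (flip R) A P h1 h2
  rw [e_flip, e_flip, e_flip] at this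
  exact this

open Classical in
/-- Bound for the pairs in the columns missed by a row. -/
theorem boundU {R : V → V → Prop} {A B : Finset V} {r s X t : ℕ} (ih : IH V (A.card + B.card))
    (h : Good R A B r s) (hr1 : 1 ≤ r) (hrs : r < s) (hX : A.card = X + r)
    {a : V} (ha : a ∈ A) (hU : (B.filter (fun b => ¬ R a b)).card = s + t) :
    e R A (B.filter (fun b => ¬ R a b)) ≤ X * (t + 1) + (r - 1) := by
  have hadd := rd_add R B a
  set U := B.filter (fun b => ¬ R a b) with hUdef
  have hUB : U ⊆ B := filter_subset _ _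
  set A' := A.filter (fun a' => ∃ u ∈ U, R a' u) with hA'
  set R0 := A.filter (fun a' => ¬ ∃ u ∈ U, R a' u) with hR0
  obtain ⟨split, hcard⟩ := e_split_left' R (A := A) (A' := A') (R0 := R0) U
    (fun a' => ∃ u ∈ U, R a' u) (fun x => by rw [hA', mem_filter])
    (fun x => by rw [hR0, mem_filter])
  have e0 : e R R0 U = 0 := by
    refine e_eq_zero fun a' ha' u hu hR => ?_
    exact (mem_filter.1 ha').2 ⟨u, hu, hR⟩
  have haR0 : a ∈ R0 := by
    refine mem_filter.2 ⟨ha, ?_⟩
    rintro ⟨u, hu, hR⟩
    exact (mem_filter.1 hu).2 hR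
  have hR0pos : 1 ≤ R0.card := card_pos.2 ⟨a, haR0⟩
  have hpos := h.rd_pos ha
  have hgood : Good R A' U (r - R0.card) (s - 1) := by
    refine ⟨?_, ?_, ?_, ?_⟩
    · intro a' ha'
      exact (mem_filter.1 ha').2
    · intro u hu
      obtain ⟨a', ha', h'⟩ := h.col u (hUB hu)
      exact ⟨a', mem_filter.2 ⟨ha', u, hu, h'⟩, h'⟩
    · intro S hS hc
      have hsub : insert a S ⊆ A := by
        intro x hx
        rcases mem_insert.1 hx with rfl | hx
        · exact ha
        · exact (mem_filter.1 (hS hx)).1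
      have hcard' : (insert a S).card ≤ s := by
        have := card_insert_le a S
        omega
      obtain ⟨b', hb', hn⟩ := h.hs _ hsub hcard'
      exact ⟨b', mem_filter.2 ⟨hb', hn a (mem_insert_self _ _)⟩,
        fun a' ha' => hn a' (mem_insert_of_mem ha')⟩
    · intro T hT hc
      by_contra hcon
      push Not at hcon
      have h1 := h.flip.hit (S := T) (hT.trans hUB)
      have hsub : A.filter (fun a' => ∀ b ∈ T, ¬ (flip R) b a') ⊆ R0 := by
        intro x hx
        obtain ⟨hxA, hxT⟩ := mem_filter.1 hx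
        refine mem_filter.2 ⟨hxA, fun hex => ?_⟩
        obtain ⟨b, hb, hR⟩ := hcon x (mem_filter.2 ⟨hxA, hex⟩)
        exact hxT b hb hR
      have h2 := card_le_card hsub
      have h3 : T.card = 0 := by omega
      have hT0 := card_eq_zero.1 h3
      subst hT0
      have hUne : 0 < U.card := by omega
      obtain ⟨u, hu⟩ := card_pos.1 hUne
      obtain ⟨a', ha', h'⟩ := h.col u (hUB hu)
      obtain ⟨b, hb, _⟩ := hcon a' (mem_filter.2 ⟨ha', u, hu, h'⟩)
      exact absurd hb (notMem_empty _)
  have key := ih R A' U (r - R0.card) (s - 1) (A'.card - (r - R0.card)) (t + 1)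
    (by omega) hgood (by omega) (by omega) (by omega)
  have hX1 : A'.card - (r - R0.card) ≤ X := by omega
  have hmul := Nat.mul_le_mul_right (t + 1) hX1
  omega

open Classical in
/-- Bound for the pairs in the rows missed by a column. -/
theorem boundW {R : V → V → Prop} {A B : Finset V} {r s Y t : ℕ} (ih : IH V (A.card + B.card))
    (h : Good R A B r s) (hr1 : 1 ≤ r) (hY : B.card = Y + s)
    {b : V} (hb : b ∈ B) (hW : (A.filter (fun a => ¬ R a b)).card = r + t) :
    e R (A.filter (fun a => ¬ R a b)) B ≤ (t + 1) * Y + (r - 1) + t := by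
  have hadd : rd (flip R) A b + (A.filter (fun a => ¬ R a b)).card = A.card :=
    rd_add (flip R) A b
  set W := A.filter (fun a => ¬ R a b) with hWdef
  have hWA : W ⊆ A := filter_subset _ _
  set B' := B.filter (fun b' => ∃ w ∈ W, R w b') with hB'
  set C0 := B.filter (fun b' => ¬ ∃ w ∈ W, R w b') with hC0
  obtain ⟨split, hcard⟩ := e_split_right' R (B := B) (B' := B') (C0 := C0) W
    (fun b' => ∃ w ∈ W, R w b') (fun x => by rw [hB', mem_filter])
    (fun x => by rw [hC0, mem_filter])
  have e0 : e R W C0 = 0 := by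
    refine e_eq_zero fun w hw b' hb' hR => ?_
    exact (mem_filter.1 hb').2 ⟨w, hw, hR⟩
  have hpos := h.flip.rd_pos hb
  have hgood : Good R W B' (r - 1) (s - C0.card) := by
    refine ⟨?_, ?_, ?_, ?_⟩
    · intro w hw
      obtain ⟨b', hb', h'⟩ := h.row w (hWA hw)
      exact ⟨b', mem_filter.2 ⟨hb', w, hw, h'⟩, h'⟩
    · intro b' hb'
      exact (mem_filter.1 hb').2
    · intro S hS hc
      by_contra hcon
      push Not at hcon
      have h1 := h.hit (S := S) (hS.trans hWA)
      have hsub : B.filter (fun b' => ∀ a ∈ S, ¬ R a b') ⊆ C0 := by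
        intro x hx
        obtain ⟨hxB, hxS⟩ := mem_filter.1 hx
        refine mem_filter.2 ⟨hxB, fun hex => ?_⟩
        obtain ⟨a, ha, hR⟩ := hcon x (mem_filter.2 ⟨hxB, hex⟩)
        exact hxS a ha hR
      have h2 := card_le_card hsub
      have h3 : S.card = 0 := by omega
      have hS0 := card_eq_zero.1 h3
      subst hS0
      have hWne : 0 < W.card := by omega
      obtain ⟨w, hw⟩ := card_pos.1 hWne
      obtain ⟨b', hb', h'⟩ := h.row w (hWA hw)
      obtain ⟨a, ha, _⟩ := hcon b' (mem_filter.2 ⟨hb', w, hw, h'⟩)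
      exact absurd ha (notMem_empty _)
    · intro T hT hc
      have hsub : insert b T ⊆ B := by
        intro x hx
        rcases mem_insert.1 hx with rfl | hx
        · exact hb
        · exact (mem_filter.1 (hT hx)).1
      have hcard' : (insert b T).card ≤ r := by
        have := card_insert_le b T
        omega
      obtain ⟨a', ha', hn⟩ := h.hr _ hsub hcard'
      exact ⟨a', mem_filter.2 ⟨ha', hn b (mem_insert_self _ _)⟩,
        fun b' hb' => hn b' (mem_insert_of_mem hb')⟩
  have hY2 : B'.card - (s - C0.card) ≤ Y := by omega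
  have hmul := Nat.mul_le_mul_left (t + 1) hY2
  rcases lt_trichotomy (r - 1) (s - C0.card) with hlt | heq | hgt
  · have key := ih R W B' (r - 1) (s - C0.card) (t + 1) (B'.card - (s - C0.card))
      (by omega) hgood hlt (by omega) (by omega)
    omega
  · rcases Nat.eq_zero_or_pos (r - 1) with h0 | hp
    · have h1 : e R W B' ≤ W.card * B'.card := by
        refine e_le_mul fun a _ => ?_
        unfold rd
        exact card_filter_le _ _
      have h2 : W.card = t + 1 := by omega
      have h3 : B'.card ≤ Y := by omega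
      rw [h2] at h1
      have h4 := Nat.mul_le_mul_left (t + 1) h3
      omega
    · obtain ⟨k, hk⟩ : ∃ k, r - 1 = k + 1 := ⟨r - 2, by omega⟩
      have hgood' : Good (flip R) B' W k (k + 1) := by
        have := (hgood.mono (r' := k + 1) (s' := k) (by omega) (by omega)).flip
        exact this
      have key := ih (flip R) B' W k (k + 1) (B'.card - (s - C0.card) + 1) (t + 1)
        (by omega) hgood' (by omega) (by omega) (by omega)
      rw [e_flip] at key
      have : (B'.card - (s - C0.card) + 1) * (t + 1) =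
          (t + 1) * (B'.card - (s - C0.card)) + (t + 1) := by ring
      omega
  · have key := ih (flip R) B' W (s - C0.card) (r - 1) (B'.card - (s - C0.card)) (t + 1)
      (by omega) hgood.flip hgt (by omega) (by omega)
    rw [e_flip] at key
    have : (B'.card - (s - C0.card)) * (t + 1) = (t + 1) * (B'.card - (s - C0.card)) := by ring
    omega

theorem arith {E X' Y' t t' r : ℕ} (ht : 1 ≤ t) (ht' : 1 ≤ t') (hY' : 2 ≤ Y') (hr : 1 ≤ r)
    (h1 : E ≤ Y' * X' + ((X' + t') * (t + 1) + (r - 1)))
    (h2 : E ≤ X' * Y' + ((t' + 1) * (Y' + t) + (r - 1) + t')) :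
    E ≤ (X' + t') * (Y' + t) + r := by
  obtain ⟨r, rfl⟩ : ∃ q, r = q + 1 := ⟨r - 1, by omega⟩
  obtain ⟨t, rfl⟩ : ∃ q, t = q + 1 := ⟨t - 1, by omega⟩
  obtain ⟨t', rfl⟩ : ∃ q, t' = q + 1 := ⟨t' - 1, by omega⟩
  obtain ⟨Y', rfl⟩ : ∃ q, Y' = q + 2 := ⟨Y' - 2, by omega⟩
  simp only [Nat.add_sub_cancel] at h1 h2
  by_cases hc : X' ≤ (t' + 1) * (Y' + 1) + 1
  · nlinarith
  · push Not at hc
    have h3 : (t + 1) * ((t' + 1) * (Y' + 1) + 2) ≤ (t + 1) * X' := Nat.mul_le_mul_left _ hc
    have h4 : 0 ≤ t * t' * Y' := Nat.zero_le _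
    have h5 : 0 ≤ t' * Y' := Nat.zero_le _
    have h6 : 0 ≤ t * Y' := Nat.zero_le _
    have h7 : 0 ≤ t * t' := Nat.zero_le _
    nlinarith

/-- All rows and all columns have fewer than the maximum possible number of neighbours. -/
theorem step4 {R : V → V → Prop} {A B : Finset V} {r s X Y : ℕ} (ih : IH V (A.card + B.card))
    (h : Good R A B r s) (hr1 : 1 ≤ r) (hrs : r < s) (hX : A.card = X + r)
    (hY : B.card = Y + s) (hrow1 : ∀ a ∈ A, rd R B a ≠ 1) (hrow : ∀ a ∈ A, rd R B a ≠ Y)
    (hcol : ∀ b ∈ B, rd (flip R) A b + s ≤ A.card) : e R A B ≤ X * Y + r := by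
  classical
  have hsA := h.s_lt
  have hrB := h.flip.s_lt
  obtain ⟨a, ha, hamax⟩ := exists_max_image A (rd R B) (card_pos.1 (by omega))
  obtain ⟨b, hb, hbmax⟩ := exists_max_image B (rd (flip R) A) (card_pos.1 (by omega))
  have ha1 := h.rd_le ha
  have ha2 := hrow a ha
  have ha3 := h.rd_pos ha
  have ha4 := hrow1 a ha
  have hb1 := hcol b hb
  have hb2 := h.flip.rd_pos hb
  obtain ⟨t, ht⟩ : ∃ t, Y = rd R B a + t := ⟨Y - rd R B a, by omega⟩
  obtain ⟨t', ht'⟩ : ∃ t', X = rd (flip R) A b + t' := ⟨X - rd (flip R) A b, by omega⟩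
  have hadd := rd_add R B a
  have hadd' : rd (flip R) A b + (A.filter (fun a => ¬ R a b)).card = A.card :=
    rd_add (flip R) A b
  have b1 := boundU ih h hr1 hrs hX ha (t := t) (by omega)
  have b2 := boundW ih h hr1 hY hb (t := t') (by omega)
  obtain ⟨s1, -⟩ := e_split_right' R (B := B) (B' := B.filter (fun b => R a b))
    (C0 := B.filter (fun b => ¬ R a b)) A (fun b => R a b) (fun x => by rw [mem_filter])
    (fun x => by rw [mem_filter])
  obtain ⟨s2, -⟩ := e_split_left' R (A := A) (A' := A.filter (fun a => R a b))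
    (R0 := A.filter (fun a => ¬ R a b)) B (fun a => R a b) (fun x => by rw [mem_filter])
    (fun x => by rw [mem_filter])
  have c1 : e R A (B.filter (fun b => R a b)) ≤ rd R B a * rd (flip R) A b := by
    rw [← e_flip]
    exact e_le_mul fun b' hb' => hbmax b' (mem_filter.1 hb').1
  have c2 : e R (A.filter (fun a => R a b)) B ≤ rd (flip R) A b * rd R B a :=
    e_le_mul fun a' ha' => hamax a' (mem_filter.1 ha').1
  rw [ht, ht']
  refine arith (t := t) (t' := t') (by omega) (by omega) (by omega) hr1 ?_ ?_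
  · rw [← ht']
    omega
  · rw [← ht]
    omega

theorem main_aux (N : ℕ) : IH V N := by
  induction N with
  | zero =>
    intro R A B r s X Y hN
    omega
  | succ N ihN =>
    intro R A B r s X Y hN h hrs hX hY
    have ih : IH V (A.card + B.card) := by
      intro R' A' B' r' s' X' Y' hN' h' hrs' hX' hY'
      exact ihN R' A' B' r' s' X' Y' (by omega) h' hrs' hX' hY'
    rcases Nat.eq_zero_or_pos r with hr0 | hr1
    · subst hr0
      exact base_case h hX hY
    by_cases h1 : ∃ a ∈ A, rd R B a = 1
    · obtain ⟨a, ha, ha1⟩ := h1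
      obtain ⟨b, hb, hab⟩ := h.row a ha
      by_cases h2 : rd (flip R) A b = 1
      · exact step1a ih h hr1 hrs hX hY ha hb hab ha1 h2
      · exact step1b ih h hr1 hrs hX hY ha hb hab ha1 h2
    push Not at h1
    by_cases h2 : ∃ b ∈ B, A.card < rd (flip R) A b + s
    · obtain ⟨b, hb, hb1⟩ := h2
      exact step2 ih h hrs hX hY h1 hb hb1
    push Not at h2
    by_cases h3 : ∃ a ∈ A, rd R B a = Y
    · obtain ⟨a, ha, ha1⟩ := h3
      exact step3 ih h hrs hX hY ha ha1
    push Not at h3
    exact step4 ih h hr1 hrs hX hY h1 h3 h2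

/-- The rectangular bound. -/
theorem rect {R : V → V → Prop} {A B : Finset V} {r s X Y : ℕ} (h : Good R A B r s)
    (hrs : r < s) (hX : A.card = X + r) (hY : B.card = Y + s) : e R A B ≤ X * Y + r :=
  main_aux (A.card + B.card + 1) R A B r s X Y (by omega) h hrs hX hY

end Pool.Agent.Q279.TD
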